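import Mathlib

/-!
# Two 3-point patterns in the integers: `M^2_3 = 1/2`

Every pair of 3-ships can be hit by a (periodic) shooting pattern of density at most `1/2`, and the
pair `[0,1,3]`, `[0,4,6]` needs density `1/2`; hence `M^2_3 = 1/2`.

Upper bound. For a modulus `2N` and a multiplier `j` the pattern `{i : (i j + c) mod 2N < N}` or the
one with `c + N` has density at most `1/2`, and it hits the translates of `{0,x,y}` as soon as the
three half circles of `ℤ/2N` starting at `0`, `-xj`, `-yj` cover everything (`Good`). After a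
translation every 3-ship is `2^k {0,x,y}` with `x`, `y` odd, and it is enough to treat `{0,P,Q}` and
`2^v {0,x,y}` with `P, Q, x, y` odd. We choose `N` so that one of the two ships contains a pair of
antipodal points for every odd `j`, and then `j` so that the half circles of the other one cover.
This fails only for a family of pairs on which another choice of `N` and `j` works, apart from the
pairs `{0,3o+4t,3o-4t}`, `2{0,2l+1,2l-1}` with `l, t = ±1`, `o = ±1, ±5`, for which explicit patterns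
of period 10 and 5 are used.

Lower bound. A potential function on the windows of length 6.
-/

set_option autoImplicit false

namespace Pool.Agent.Results.MP_e24151_co.TwoThreeShips

open Filter Topology
open scoped Classical

/-- `Good N X Y`: the three half circles of `ℤ/2N` starting at `0`, `-X`, `-Y` cover everything. -/
def Good (N X Y : ℤ) : Prop :=
  ∀ z : ℤ, z % (2 * N) < N ∨ (z + X) % (2 * N) < N ∨ (z + Y) % (2 * N) < N

theorem emod_add_cases {M r a : ℤ} (hr : 0 ≤ r) (hr' : r < M) (ha : 0 ≤ a) (ha' : a < M) :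
    (r + a < M ∧ (r + a) % M = r + a) ∨ (M ≤ r + a ∧ (r + a) % M = r + a - M) := by
  rcases lt_or_ge (r + a) M with h | h
  · left; exact ⟨h, Int.emod_eq_of_lt (by omega) h⟩
  · right
    refine ⟨h, ?_⟩
    rw [← Int.sub_emod_right (r + a) M]
    exact Int.emod_eq_of_lt (by omega) (by omega)

theorem emod_of_eq {M z r k : ℤ} (hr : 0 ≤ r) (hr' : r < M) (h : z = r + M * k) : z % M = r := by
  rw [h, Int.add_mul_emod_self_left]
  exact Int.emod_eq_of_lt hr hr'

theorem good_of {N X Y : ℤ} (hN : 0 < N) (h1 : X % (2 * N) ≤ N) (h2 : N ≤ Y % (2 * N))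
    (h3 : Y % (2 * N) ≤ X % (2 * N) + N) : Good N X Y := by
  intro z
  have hz0 := Int.emod_nonneg z (show (2 * N) ≠ 0 by omega)
  have hz1 := Int.emod_lt_of_pos z (show 0 < 2 * N by omega)
  have hX0 := Int.emod_nonneg X (show (2 * N) ≠ 0 by omega)
  have hX1 := Int.emod_lt_of_pos X (show 0 < 2 * N by omega)
  have hY0 := Int.emod_nonneg Y (show (2 * N) ≠ 0 by omega)
  have hY1 := Int.emod_lt_of_pos Y (show 0 < 2 * N by omega)
  rw [Int.add_emod z X, Int.add_emod z Y]
  have e1 := emod_add_cases hz0 hz1 hX0 hX1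
  have e2 := emod_add_cases hz0 hz1 hY0 hY1
  omega

theorem good_swap {N X Y : ℤ} (h : Good N X Y) : Good N Y X := by
  intro z
  have := h z
  tauto

theorem half_refl {N : ℤ} (hN : 0 < N) (z : ℤ) :
    (N - 1 - z) % (2 * N) < N ↔ z % (2 * N) < N := by
  have hz0 := Int.emod_nonneg z (show (2 * N) ≠ 0 by omega)
  have hz1 := Int.emod_lt_of_pos z (show 0 < 2 * N by omega)
  have hz := Int.emod_add_mul_ediv z (2 * N)
  rcases lt_or_ge (z % (2 * N)) N with h | h
  · have : (N - 1 - z) % (2 * N) = N - 1 - z % (2 * N) := by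
      apply emod_of_eq (k := -(z / (2 * N))) (by omega) (by omega)
      linear_combination hz
    omega
  · have : (N - 1 - z) % (2 * N) = 3 * N - 1 - z % (2 * N) := by
      apply emod_of_eq (k := -(z / (2 * N)) - 1) (by omega) (by omega)
      linear_combination hz
    omega

theorem good_neg {N X Y : ℤ} (hN : 0 < N) (h : Good N X Y) : Good N (-X) (-Y) := by
  intro z
  have := h (N - 1 - z)
  rw [half_refl hN, show N - 1 - z + X = N - 1 - (z + -X) by ring,
    show N - 1 - z + Y = N - 1 - (z + -Y) by ring, half_refl hN, half_refl hN] at this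
  exact this

theorem half_scale' {N g : ℤ} (hN : 0 < N) (hg : 0 < g) (z : ℤ) :
    z % (2 * (g * N)) < g * N ↔ (z / g) % (2 * N) < N := by
  have hz0 := Int.emod_nonneg z (show g ≠ 0 by omega)
  have hz1 := Int.emod_lt_of_pos z hg
  have hz := Int.emod_add_mul_ediv z g
  have hq0 := Int.emod_nonneg (z / g) (show (2 * N) ≠ 0 by omega)
  have hq1 := Int.emod_lt_of_pos (z / g) (show 0 < 2 * N by omega)
  have hq := Int.emod_add_mul_ediv (z / g) (2 * N)
  have : z % (2 * (g * N)) = z % g + g * ((z / g) % (2 * N)) := by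
    apply emod_of_eq (k := z / g / (2 * N))
    · positivity
    · nlinarith
    · linear_combination -hz - g * hq
  rw [this]
  constructor
  · intro h
    by_contra h2
    push Not at h2
    nlinarith
  · intro h
    nlinarith

theorem good_scale {N X Y g : ℤ} (hN : 0 < N) (hg : 0 < g) (h : Good N X Y) :
    Good (g * N) (g * X) (g * Y) := by
  intro z
  rw [half_scale' hN hg, half_scale' hN hg, half_scale' hN hg,
    Int.add_mul_ediv_left _ _ (by omega), Int.add_mul_ediv_left _ _ (by omega)]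
  exact h (z / g)

theorem half_add {N : ℤ} (hN : 0 < N) (z : ℤ) :
    (z + N) % (2 * N) < N ↔ ¬ (z % (2 * N) < N) := by
  have hz0 := Int.emod_nonneg z (show (2 * N) ≠ 0 by omega)
  have hz1 := Int.emod_lt_of_pos z (show 0 < 2 * N by omega)
  rw [Int.add_emod, Int.emod_eq_of_lt (show 0 ≤ N by omega) (show N < 2 * N by omega)]
  have := emod_add_cases hz0 hz1 (show 0 ≤ N by omega) (show N < 2 * N by omega)
  omega

theorem anti1 {N X Y k : ℤ} (hN : 0 < N) (h : X = N * (2 * k + 1)) : Good N X Y := by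
  intro z
  have h2 : (z + X) % (2 * N) = (z + N) % (2 * N) := by
    rw [show z + X = (z + N) + (2 * N) * k by rw [h]; ring, Int.add_mul_emod_self_left]
  rw [h2, half_add hN]
  tauto

theorem anti2 {N X Y k : ℤ} (hN : 0 < N) (h : Y = N * (2 * k + 1)) : Good N X Y :=
  good_swap (anti1 hN h)

theorem anti3 {N X Y k : ℤ} (hN : 0 < N) (h : X - Y = N * (2 * k + 1)) : Good N X Y := by
  intro z
  have h2 : (z + X) % (2 * N) = ((z + Y) + N) % (2 * N) := by
    rw [show z + X = ((z + Y) + N) + (2 * N) * k by linear_combination h,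
      Int.add_mul_emod_self_left]
  rw [h2, half_add hN]
  tauto

/-- The circle form of the problem. -/
def GG (x y x' y' : ℤ) : Prop :=
  ∃ N : ℤ, 0 < N ∧ ∃ j : ℤ, Good N (x * j) (y * j) ∧ Good N (x' * j) (y' * j)

theorem gg_swap1 {x y x' y' : ℤ} (h : GG x y x' y') : GG y x x' y' := by
  obtain ⟨N, hN, j, h1, h2⟩ := h
  exact ⟨N, hN, j, good_swap h1, h2⟩

theorem gg_swap2 {x y x' y' : ℤ} (h : GG x y x' y') : GG x y y' x' := by
  obtain ⟨N, hN, j, h1, h2⟩ := h
  exact ⟨N, hN, j, h1, good_swap h2⟩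

theorem gg_neg1 {x y x' y' : ℤ} (h : GG x y x' y') : GG (-x) (-y) x' y' := by
  obtain ⟨N, hN, j, h1, h2⟩ := h
  refine ⟨N, hN, j, ?_, h2⟩
  rw [neg_mul, neg_mul]
  exact good_neg hN h1

theorem gg_neg2 {x y x' y' : ℤ} (h : GG x y x' y') : GG x y (-x') (-y') := by
  obtain ⟨N, hN, j, h1, h2⟩ := h
  refine ⟨N, hN, j, h1, ?_⟩
  rw [neg_mul, neg_mul]
  exact good_neg hN h2

/-- `X` meets all the translates of `{0, x, y}`. -/
def Hit (X : Set ℤ) (x y : ℤ) : Prop := ∀ t : ℤ, t ∈ X ∨ t + x ∈ X ∨ t + y ∈ X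

/-- there is a periodic pattern of density at most `1/2` hitting `{0,x,y}` and `{0,x',y'}` -/
def Half (x y x' y' : ℤ) : Prop :=
  ∃ m : ℕ, 0 < m ∧ ∃ X : Set ℤ, (∀ i : ℤ, i + m ∈ X ↔ i ∈ X) ∧
    2 * Nat.count (fun i : ℕ => (i : ℤ) ∈ X) m ≤ m ∧ Hit X x y ∧ Hit X x' y'

theorem count_add_count_not (p q : ℕ → Prop) (h : ∀ i, q i ↔ ¬ p i) (m : ℕ) :
    Nat.count p m + Nat.count q m = m := by
  induction m with
  | zero => simp
  | succ m ih =>
    rw [Nat.count_succ, Nat.count_succ]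
    by_cases h1 : p m
    · have h2 : ¬ q m := by rw [h]; tauto
      rw [if_pos h1, if_neg h2]; omega
    · have h2 : q m := by rw [h]; tauto
      rw [if_neg h1, if_pos h2]; omega

theorem half_of_gg {x y x' y' : ℤ} (h : GG x y x' y') : Half x y x' y' := by
  obtain ⟨N, hN, j, h1, h2⟩ := h
  have key : ∀ c : ℤ, ∃ X : Set ℤ, (∀ i : ℤ, i ∈ X ↔ (i * j + c) % (2 * N) < N) ∧
      (∀ i : ℤ, i + ((2 * N).toNat : ℕ) ∈ X ↔ i ∈ X) ∧ Hit X x y ∧ Hit X x' y' := by
    intro c
    refine ⟨{i : ℤ | (i * j + c) % (2 * N) < N}, fun i => Iff.rfl, ?_, ?_, ?_⟩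
    · intro i
      rw [Set.mem_ofPred_eq, Set.mem_ofPred_eq, Int.toNat_of_nonneg (by omega),
        show (i + 2 * N) * j + c = (i * j + c) + (2 * N) * j by ring, Int.add_mul_emod_self_left]
    · intro t
      have := h1 (t * j + c)
      simp only [Set.mem_ofPred_eq]
      rw [show (t + x) * j + c = t * j + c + x * j by ring,
        show (t + y) * j + c = t * j + c + y * j by ring]
      exact this
    · intro t
      have := h2 (t * j + c)
      simp only [Set.mem_ofPred_eq]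
      rw [show (t + x') * j + c = t * j + c + x' * j by ring,
        show (t + y') * j + c = t * j + c + y' * j by ring]
      exact this
  obtain ⟨X0, a0, b0, c0, d0⟩ := key 0
  obtain ⟨X1, a1, b1, c1, d1⟩ := key N
  have hcount := count_add_count_not (fun i : ℕ => (i : ℤ) ∈ X0)
    (fun i : ℕ => (i : ℤ) ∈ X1) (by
      intro i
      rw [a0, a1, half_add hN, add_zero]) (2 * N).toNat
  have hpos : 0 < (2 * N).toNat := by omega
  by_cases hle : 2 * Nat.count (fun i : ℕ => (i : ℤ) ∈ X0) (2 * N).toNat ≤ (2 * N).toNat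
  · exact ⟨(2 * N).toNat, hpos, X0, b0, hle, c0, d0⟩
  · refine ⟨(2 * N).toNat, hpos, X1, b1, ?_, c1, d1⟩
    omega

theorem hit_swap {X : Set ℤ} {x y : ℤ} (h : Hit X x y) : Hit X y x := by
  intro t
  have := h t
  tauto

theorem hit_recenter {X : Set ℤ} {x y : ℤ} : Hit X x y ↔ Hit X (y - x) (-x) := by
  constructor
  · intro h t
    have := h (t - x)
    rw [show t - x + x = t by ring, show t - x + y = t + (y - x) by ring,
      show t - x = t + -x by ring] at this
    tauto
  · intro h t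
    have := h (t + x)
    rw [show t + x + (y - x) = t + y by ring, show t + x + -x = t by ring] at this
    tauto

theorem count_block (q : ℕ → Prop) (g : ℕ) (hg : 0 < g) (m : ℕ) :
    Nat.count (fun i => q (i / g)) (g * m) = g * Nat.count q m := by
  induction m with
  | zero => simp
  | succ m ih =>
    rw [Nat.mul_succ, Nat.count_add, ih, Nat.count_succ, mul_add]
    congr 1
    have : Nat.count (fun k => q ((g * m + k) / g)) g = Nat.count (fun _ => q m) g := by
      rw [Nat.count_eq_card_filter_range, Nat.count_eq_card_filter_range]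
      congr 1
      apply Finset.filter_congr
      intro k hk
      rw [Finset.mem_range] at hk
      rw [Nat.mul_add_div hg, Nat.div_eq_of_lt hk, add_zero]
    rw [this]
    by_cases h : q m
    · simp [h, Nat.count_eq_card_filter_range]
    · simp [h, Nat.count_eq_card_filter_range]

theorem half_scale {x y x' y' : ℤ} (g : ℤ) (hg : 0 < g) (h : Half x y x' y') :
    Half (g * x) (g * y) (g * x') (g * y') := by
  obtain ⟨m, hm, X, hper, hc, h1, h2⟩ := h
  obtain ⟨G, rfl⟩ : ∃ G : ℕ, g = G := ⟨g.toNat, by omega⟩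
  have hG : 0 < G := by omega
  have hit : ∀ x y : ℤ, Hit X x y → Hit {i : ℤ | i / (G : ℤ) ∈ X} (G * x) (G * y) := by
    intro x y h t
    have := h (t / (G : ℤ))
    simp only [Set.mem_ofPred_eq]
    rw [Int.add_mul_ediv_left _ _ (by omega), Int.add_mul_ediv_left _ _ (by omega)]
    exact this
  refine ⟨G * m, Nat.mul_pos hG hm, {i : ℤ | i / (G : ℤ) ∈ X}, ?_, ?_, hit _ _ h1, hit _ _ h2⟩
  · intro i
    simp only [Set.mem_ofPred_eq]
    push_cast
    rw [Int.add_mul_ediv_left _ _ (by omega)]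
    exact hper _
  · have : Nat.count (fun i : ℕ => (i : ℤ) ∈ {i : ℤ | i / (G : ℤ) ∈ X}) (G * m) =
        G * Nat.count (fun i : ℕ => (i : ℤ) ∈ X) m := by
      rw [← count_block (fun i : ℕ => (i : ℤ) ∈ X) G hG m]
      congr 1
    rw [this]
    calc 2 * (G * Nat.count (fun i : ℕ => (i : ℤ) ∈ X) m) =
        G * (2 * Nat.count (fun i : ℕ => (i : ℤ) ∈ X) m) := by ring
      _ ≤ G * m := Nat.mul_le_mul_left _ hc

theorem half_comm {x y x' y' : ℤ} (h : Half x y x' y') : Half x' y' x y := by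
  obtain ⟨m, hm, X, hper, hc, h1, h2⟩ := h
  exact ⟨m, hm, X, hper, hc, h2, h1⟩

theorem half_swap1 {x y x' y' : ℤ} (h : Half x y x' y') : Half y x x' y' := by
  obtain ⟨m, hm, X, hper, hc, h1, h2⟩ := h
  exact ⟨m, hm, X, hper, hc, hit_swap h1, h2⟩

theorem half_swap2 {x y x' y' : ℤ} (h : Half x y x' y') : Half x y y' x' := by
  obtain ⟨m, hm, X, hper, hc, h1, h2⟩ := h
  exact ⟨m, hm, X, hper, hc, h1, hit_swap h2⟩

theorem odd_shift {N u j k : ℤ} (hu : Odd u) (hk : Odd k) :
    (u * (j + N * k)) % (2 * N) = (u * j + N) % (2 * N) := by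
  obtain ⟨a, rfl⟩ := hu
  obtain ⟨b, rfl⟩ := hk
  rw [show (2 * a + 1) * (j + N * (2 * b + 1)) = ((2 * a + 1) * j + N) +
    (2 * N) * (2 * a * b + a + b) by ring, Int.add_mul_emod_self_left]

theorem lemmaM {N u w j : ℤ} (hN : 0 < N) (hN2 : 2 ∣ N) (hu : Odd u) (hw : Odd w) (hj : Odd j)
    (h : ¬ ((u * j) % (2 * N) < N ↔ (w * j) % (2 * N) < N)) :
    ∃ j', Odd j' ∧ Good N (u * j') (w * j') := by
  have main : ∀ u w : ℤ, Odd u → Odd w → (u * j) % (2 * N) < N → N ≤ (w * j) % (2 * N) →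
      ∃ j', Odd j' ∧ Good N (u * j') (w * j') := by
    intro u w hu hw h1 h2
    by_cases h3 : (w * j) % (2 * N) ≤ (u * j) % (2 * N) + N
    · exact ⟨j, hj, good_of hN h1.le h2 h3⟩
    · push Not at h3
      refine ⟨j + N * 1, ?_, ?_⟩
      · obtain ⟨K, hK⟩ := hN2
        rw [mul_one]
        exact hj.add_even ⟨K, by omega⟩
      · apply good_swap
        have e1 := odd_shift (N := N) (j := j) hu odd_one
        have e2 := odd_shift (N := N) (j := j) hw odd_one
        have hu0 := Int.emod_nonneg (u * j) (show (2 * N) ≠ 0 by omega)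
        have hw1 := Int.emod_lt_of_pos (w * j) (show 0 < 2 * N by omega)
        have hu1 := Int.emod_lt_of_pos (u * j) (show 0 < 2 * N by omega)
        have hNN : N % (2 * N) = N := Int.emod_eq_of_lt (by omega) (by omega)
        have c1 := emod_add_cases hu0 hu1 (show 0 ≤ N by omega) (show N < 2 * N by omega)
        have c2 := emod_add_cases (show 0 ≤ (w * j) % (2 * N) by omega) hw1 (show 0 ≤ N by omega)
          (show N < 2 * N by omega)
        rw [Int.add_emod, hNN] at e1 e2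
        apply good_of hN
        · omega
        · omega
        · omega
  by_cases h1 : (u * j) % (2 * N) < N
  · have h2 : ¬ (w * j) % (2 * N) < N := by tauto
    exact main u w hu hw h1 (by omega)
  · have h2 : (w * j) % (2 * N) < N := by tauto
    obtain ⟨j', h3, h4⟩ := main w u hw hu h2 (by omega)
    exact ⟨j', h3, good_swap h4⟩

theorem lemmaK2 {N u w c : ℤ} (b : ℕ) (hN : 0 < N) (hb : 2 ≤ b) (hbN : (2 : ℤ) ^ (b + 1) ∣ N)
    (hu : Odd u) (hw : Odd w) (hc : Odd c) (huw : u - w = 2 ^ b * c)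
    (h : ∀ j, Odd j → ((u * j) % (2 * N) < N ↔ (w * j) % (2 * N) < N)) : False := by
  obtain ⟨N', hN'⟩ := hbN
  have hcop : IsCoprime w ((2 : ℤ) ^ (b + 1)) := by
    apply IsCoprime.pow_right
    rw [Int.isCoprime_iff_gcd_eq_one]
    obtain ⟨k, rfl⟩ := hw
    have : IsCoprime (2 * k + 1) (2 : ℤ) := ⟨1, -k, by ring⟩
    exact Int.isCoprime_iff_gcd_eq_one.1 this
  obtain ⟨e, f, hef⟩ := hcop
  -- e * w + f * 2^(b+1) = 1
  have he : Odd e := by
    have : Odd (e * w) := by
      have h2 : e * w = 1 - f * 2 ^ (b + 1) := by linear_combination hef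
      rw [h2]
      exact odd_one.sub_even ⟨f * 2 ^ b, by ring⟩
    exact (Int.odd_mul.1 this).1
  obtain ⟨s, hs⟩ : ∃ s, s = 2 * N' := ⟨_, rfl⟩
  have hsN : 2 ^ b * s = N := by rw [hs, hN']; ring
  have hspos : 0 < s := by
    by_contra hneg
    push Not at hneg
    have : 2 ^ b * s ≤ 0 := mul_nonpos_of_nonneg_of_nonpos (by positivity) hneg
    omega
  have hs4 : 4 * s ≤ N := by
    have : (4 : ℤ) ≤ 2 ^ b := by
      calc (4 : ℤ) = 2 ^ 2 := by norm_num
        _ ≤ 2 ^ b := pow_le_pow_right₀ (by norm_num) hb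
    nlinarith
  have step : ∀ m : ℤ, ((u + s * m + N * m) % (2 * N) < N ↔ (w + s * m) % (2 * N) < N) := by
    intro m
    have hj : Odd (1 + s * (e * m)) := odd_one.add_even (by
      rw [hs]; exact ⟨N' * (e * m), by ring⟩)
    have := h _ hj
    have e1 : w * (1 + s * (e * m)) = w + s * m + (2 * N) * (- (f * m)) := by
      linear_combination s * m * hef - 2 * f * m * hsN
    have e2 : u * (1 + s * (e * m)) = u + s * m + N * (c * e * m) + (2 * N) * (- (f * m)) := by
      linear_combination s * m * hef - 2 * f * m * hsN + s * e * m * huw + c * e * m * hsN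
    rw [e1, e2, Int.add_mul_emod_self_left, Int.add_mul_emod_self_left] at this
    obtain ⟨k, hk⟩ := hc.mul he
    have e3 : u + s * m + N * (c * e * m) = u + s * m + N * m + (2 * N) * (k * m) := by
      rw [show c * e * m = (c * e) * m by ring, hk]; ring
    rw [e3, Int.add_mul_emod_self_left] at this
    exact this
  have s0 := step 0
  have s1 := step 1
  have s2 := step 2
  have s3 := step 3
  have hNN : ∀ z, (z + N * 2) % (2 * N) = z % (2 * N) := by
    intro z
    rw [show z + N * 2 = z + (2 * N) * 1 by ring, Int.add_mul_emod_self_left]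
  rw [show u + s * 0 + N * 0 = u by ring, show w + s * 0 = w by ring] at s0
  rw [show u + s * 1 + N * 1 = (u + s) + N by ring, show w + s * 1 = w + s by ring,
    half_add hN] at s1
  rw [hNN] at s2
  rw [show u + s * 3 + N * 3 = ((u + s * 3) + N) + N * 2 by ring, hNN, half_add hN] at s3
  have hu0 := Int.emod_nonneg u (show (2 * N) ≠ 0 by omega)
  have hu1 := Int.emod_lt_of_pos u (show 0 < 2 * N by omega)
  have hw0 := Int.emod_nonneg w (show (2 * N) ≠ 0 by omega)
  have hw1 := Int.emod_lt_of_pos w (show 0 < 2 * N by omega)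
  have sh : ∀ k : ℤ, 0 ≤ k → k < 2 * N → k % (2 * N) = k := fun k h1 h2 => Int.emod_eq_of_lt h1 h2
  rw [Int.add_emod u s, Int.add_emod w s, sh s (by omega) (by omega)] at s1
  rw [Int.add_emod u (s * 2), Int.add_emod w (s * 2), sh (s * 2) (by omega) (by omega)] at s2
  rw [Int.add_emod u (s * 3), Int.add_emod w (s * 3), sh (s * 3) (by omega) (by omega)] at s3
  have a1 := emod_add_cases hu0 hu1 (show 0 ≤ s by omega) (show s < 2 * N by omega)
  have a2 := emod_add_cases hu0 hu1 (show 0 ≤ s * 2 by omega) (show s * 2 < 2 * N by omega)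
  have a3 := emod_add_cases hu0 hu1 (show 0 ≤ s * 3 by omega) (show s * 3 < 2 * N by omega)
  have b1 := emod_add_cases hw0 hw1 (show 0 ≤ s by omega) (show s < 2 * N by omega)
  have b2 := emod_add_cases hw0 hw1 (show 0 ≤ s * 2 by omega) (show s * 2 < 2 * N by omega)
  have b3 := emod_add_cases hw0 hw1 (show 0 ≤ s * 3 by omega) (show s * 3 < 2 * N by omega)
  omega

theorem lemmaK1 {N u w : ℤ} (hN : 0 < N) (h4 : 4 ∣ N) (hu : Odd u) (hw : Odd w)
    (huw : (u - w) % 4 = 2)
    (h : ∀ j, Odd j → ((u * j) % (2 * N) < N ↔ (w * j) % (2 * N) < N)) :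
    (u + w) % (2 * N) = N := by
  obtain ⟨K, hK⟩ := h4
  have hKpos : 0 < K := by omega
  have e8 : 2 * N = 8 * K := by omega
  have step : ∀ j, Odd j → 2 * K ≤ ((u + w) * j) % (8 * K) ∧ ((u + w) * j) % (8 * K) < 6 * K := by
    intro j hj
    have h0 := h j hj
    have h1 := h (j + 2 * K * u) (hj.add_even ⟨K * u, by ring⟩)
    have hu2 : ∃ k, u * u = 1 + 4 * k := by
      obtain ⟨a, rfl⟩ := hu
      exact ⟨a * a + a, by ring⟩
    have huw2 : ∃ k, u * w = -1 + 4 * k := by
      obtain ⟨a, ha⟩ := hu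
      obtain ⟨q, hq⟩ : ∃ q, u - w = 4 * q + 2 := ⟨(u - w) / 4, by omega⟩
      have hw' : w = u - 4 * q - 2 := by omega
      rw [hw', ha]
      exact ⟨a * a - q * (2 * a + 1), by ring⟩
    obtain ⟨k1, hk1⟩ := hu2
    obtain ⟨k2, hk2⟩ := huw2
    rw [e8, show u * (j + 2 * K * u) = (u * j + 2 * K) + (8 * K) * k1 by
        linear_combination 2 * K * hk1, show w * (j + 2 * K * u) = (w * j + 6 * K) +
        (8 * K) * (k2 - 1) by linear_combination 2 * K * hk2, Int.add_mul_emod_self_left,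
        Int.add_mul_emod_self_left, Int.add_emod (u * j), Int.add_emod (w * j),
        Int.emod_eq_of_lt (show 0 ≤ 2 * K by omega) (show 2 * K < 8 * K by omega),
        Int.emod_eq_of_lt (show 0 ≤ 6 * K by omega) (show 6 * K < 8 * K by omega)] at h1
    rw [e8] at h0
    have hu0 := Int.emod_nonneg (u * j) (show (8 * K) ≠ 0 by omega)
    have hu1 := Int.emod_lt_of_pos (u * j) (show 0 < 8 * K by omega)
    have hw0 := Int.emod_nonneg (w * j) (show (8 * K) ≠ 0 by omega)
    have hw1 := Int.emod_lt_of_pos (w * j) (show 0 < 8 * K by omega)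
    have a1 := emod_add_cases hu0 hu1 (show 0 ≤ 2 * K by omega) (show 2 * K < 8 * K by omega)
    have a2 := emod_add_cases hw0 hw1 (show 0 ≤ 6 * K by omega) (show 6 * K < 8 * K by omega)
    have a3 := emod_add_cases hu0 hu1 hw0 hw1
    rw [add_mul, Int.add_emod]
    omega
  have hc0 := Int.emod_nonneg (u + w) (show (8 * K) ≠ 0 by omega)
  have hc1 := Int.emod_lt_of_pos (u + w) (show 0 < 8 * K by omega)
  have hc := Int.emod_add_mul_ediv (u + w) (8 * K)
  rw [e8]
  obtain ⟨c, hcdef⟩ : ∃ c, c = (u + w) % (8 * K) := ⟨_, rfl⟩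
  rw [← hcdef] at hc0 hc1 hc ⊢
  by_contra hne
  obtain ⟨d, hd⟩ : ∃ d, d = c - 4 * K := ⟨_, rfl⟩
  have s1 := step 1 odd_one
  rw [mul_one, ← hcdef] at s1
  have key : ∀ d : ℤ, 0 < d → d ≤ 2 * K → (∀ j, Odd j → 2 * K ≤ (4 * K + d * j) % (8 * K) ∧
      (4 * K + d * j) % (8 * K) < 6 * K) → False := by
    intro d hd0 hd1 hh
    rcases hd1.lt_or_eq with hlt | heq
    · obtain ⟨q, hq⟩ : ∃ q, q = (2 * K - d) / (2 * d) := ⟨_, rfl⟩
      have q1 := Int.emod_nonneg (2 * K - d) (show (2 * d) ≠ 0 by omega)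
      have q2 := Int.emod_lt_of_pos (2 * K - d) (show 0 < 2 * d by omega)
      have q3 := Int.emod_add_mul_ediv (2 * K - d) (2 * d)
      rw [← hq] at q3
      have hodd : Odd (2 * q + 3) := ⟨q + 1, by ring⟩
      have := hh _ hodd
      have l1 : 2 * K < d * (2 * q + 3) := by nlinarith
      have l2 : d * (2 * q + 3) < 6 * K := by nlinarith
      have := emod_add_cases (show 0 ≤ 4 * K by omega) (show 4 * K < 8 * K by omega)
        (show 0 ≤ d * (2 * q + 3) by omega) (show d * (2 * q + 3) < 8 * K by omega)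
      omega
    · have := hh 1 odd_one
      have := emod_add_cases (show 0 ≤ 4 * K by omega) (show 4 * K < 8 * K by omega)
        (show 0 ≤ d * 1 by omega) (show d * 1 < 8 * K by omega)
      omega
  have red : ∀ j, Odd j → ((u + w) * j) % (8 * K) = (4 * K + d * j) % (8 * K) := by
    intro j hj
    obtain ⟨a, rfl⟩ := hj
    rw [show (u + w) * (2 * a + 1) = (4 * K + d * (2 * a + 1)) +
      (8 * K) * ((u + w) / (8 * K) * (2 * a + 1) + a) by
        rw [hd]; linear_combination (-(2 * a + 1)) * hc, Int.add_mul_emod_self_left]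
  rcases lt_trichotomy d 0 with hneg | hz | hpos
  · apply key (-d) (by omega) (by omega)
    intro j hj
    have := step (-j) hj.neg
    rw [red _ hj.neg] at this
    rw [show -d * j = d * -j by ring]
    exact this
  · omega
  · apply key d hpos (by omega)
    intro j hj
    rw [← red j hj]
    exact step j hj

theorem lemmaK {N u w c : ℤ} (b : ℕ) (hN : 0 < N) (hb : 1 ≤ b) (hbN : (2 : ℤ) ^ (b + 1) ∣ N)
    (hu : Odd u) (hw : Odd w) (hc : Odd c) (huw : u - w = 2 ^ b * c) :
    (∃ j, Odd j ∧ Good N (u * j) (w * j)) ∨ (b = 1 ∧ (u + w) % (2 * N) = N) := by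
  by_cases h : ∀ j, Odd j → ((u * j) % (2 * N) < N ↔ (w * j) % (2 * N) < N)
  · right
    rcases eq_or_lt_of_le hb with h1 | h2
    · refine ⟨h1.symm, lemmaK1 hN ?_ hu hw ?_ h⟩
      · rw [← h1] at hbN
        exact hbN
      · rw [← h1] at huw
        obtain ⟨k, rfl⟩ := hc
        omega
    · exact (lemmaK2 b hN h2 hbN hu hw hc huw h).elim
  · left
    push Not at h
    obtain ⟨j, hj, hh⟩ := h
    refine lemmaM hN ?_ hu hw hj ?_
    · exact dvd_trans ⟨2 ^ b, by ring⟩ hbN
    · intro h3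
      rcases hh with ⟨h1, h2⟩ | ⟨h1, h2⟩
      · have := h3.1 h1
        omega
      · have := h3.2 h2
        omega

/-- an odd solution `j` of `d j ≡ h` modulo an odd `ω` -/
theorem odd_sol {d ω h : ℤ} (hω : Odd ω) (hd : IsCoprime d ω) :
    ∃ j k, Odd j ∧ d * j = h + ω * k := by
  obtain ⟨a, b, hab⟩ := hd
  rcases Int.even_or_odd (a * h) with he | ho
  · refine ⟨a * h + ω, d - b * h, he.add_odd hω, ?_⟩
    linear_combination h * hab
  · refine ⟨a * h, - b * h, ho, ?_⟩
    linear_combination h * hab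

theorem lemmaRot {N r M f ω d P D : ℤ} (hN : 0 < N) (h1 : 2 * N = r * M) (h2 : 2 * N = f * ω)
    (hM : 2 ∣ M) (hr : 4 ≤ r) (hf : 0 < f) (hω : 3 ≤ ω) (hωo : Odd ω) (hP : IsCoprime P r)
    (hD : r ∣ D) (hDf : D = f * d) (hd : IsCoprime d ω) :
    ∃ j, Odd j ∧ Good N (P * j) ((P - D) * j) := by
  obtain ⟨h, hh⟩ := hωo
  have hh1 : 1 ≤ h := by omega
  obtain ⟨j0, k0, hj0, hdj⟩ := odd_sol (h := h) (⟨h, hh⟩ : Odd ω) hd
  have hMpos : 0 < M := by
    by_contra hneg
    push Not at hneg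
    have : r * M ≤ 0 := mul_nonpos_of_nonneg_of_nonpos (by omega) hneg
    omega
  have hfh : 2 * (f * h) + f = 2 * N := by rw [h2, hh]; ring
  have hfh0 : 0 < f * h := by positivity
  have hff : f ≤ f * h := by nlinarith
  have hM4 : 4 * M ≤ 2 * N := by rw [h1]; nlinarith
  have hDj : D * j0 = f * h + (2 * N) * k0 := by
    rw [hDf]; linear_combination f * hdj - k0 * h2
  obtain ⟨k, hk⟩ : ∃ k, k = (N - (P - D) * j0) / M := ⟨_, rfl⟩
  have q1 := Int.emod_nonneg (N - (P - D) * j0) (show M ≠ 0 by omega)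
  have q2 := Int.emod_lt_of_pos (N - (P - D) * j0) hMpos
  have q3 := Int.emod_add_mul_ediv (N - (P - D) * j0) M
  rw [← hk] at q3
  obtain ⟨a, b, hab⟩ := hP
  obtain ⟨D', hD'⟩ := hD
  obtain ⟨M', hM'⟩ := hM
  refine ⟨j0 + M * (a * k), hj0.add_even ⟨M' * (a * k), by rw [hM']; ring⟩, ?_⟩
  obtain ⟨y, hy⟩ : ∃ y, y = (P - D) * j0 + k * M := ⟨_, rfl⟩
  have eY : ((P - D) * (j0 + M * (a * k))) % (2 * N) = y := by
    apply emod_of_eq (k := - (b * k) - D' * (a * k)) (by nlinarith) (by nlinarith)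
    rw [hy]
    linear_combination M * k * hab + (b * k + D' * (a * k)) * h1 - M * (a * k) * hD'
  have eX : (P * (j0 + M * (a * k))) % (2 * N) = y + f * h := by
    apply emod_of_eq (k := - (b * k) + k0) (by nlinarith) (by nlinarith)
    rw [hy]
    linear_combination M * k * hab + (b * k) * h1 + hDj
  apply good_swap
  apply good_of hN
  · rw [eY]; nlinarith
  · rw [eX]; nlinarith
  · rw [eY, eX]; nlinarith

theorem lemmaR3 {ω t P : ℤ} (hω : 3 ≤ ω) (hωo : Odd ω) (ht : IsCoprime (2 * t) ω) (hP : Odd P)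
    (hdvd : ¬ ω ∣ P - 4 * t) : ∃ j, Odd j ∧ Good (2 * ω) (P * j) ((P - 8 * t) * j) := by
  obtain ⟨h, hh⟩ := hωo
  have hh1 : 1 ≤ h := by omega
  obtain ⟨j0, k0, hj0, hdj⟩ := odd_sol (h := h) (⟨h, hh⟩ : Odd ω) ht
  obtain ⟨N, hN⟩ : ∃ N, N = 2 * ω := ⟨_, rfl⟩
  have hNpos : 0 < N := by omega
  have hDj : 8 * t * j0 = 4 * h + (2 * N) * k0 := by
    rw [hN]; linear_combination 4 * hdj
  have hr0 := Int.emod_nonneg ((P - 8 * t) * j0) (show 2 * N ≠ 0 by omega)
  have hr1 := Int.emod_lt_of_pos ((P - 8 * t) * j0) (show 0 < 2 * N by omega)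
  have hr := Int.emod_add_mul_ediv ((P - 8 * t) * j0) (2 * N)
  obtain ⟨r, hrdef⟩ : ∃ r, r = ((P - 8 * t) * j0) % (2 * N) := ⟨_, rfl⟩
  obtain ⟨q, hqdef⟩ : ∃ q, q = ((P - 8 * t) * j0) / (2 * N) := ⟨_, rfl⟩
  rw [← hrdef] at hr0 hr1 hr
  rw [← hqdef] at hr
  rw [← hN]
  by_cases c1 : 2 ≤ r ∧ r ≤ N
  · refine ⟨j0, hj0, good_swap ?_⟩
    have eX : (P * j0) % (2 * N) = r + 4 * h := by
      apply emod_of_eq (k := q + k0) (by omega) (by omega)
      linear_combination hDj - hr
    apply good_of hNpos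
    · rw [← hrdef]; omega
    · rw [eX]; omega
    · rw [eX, ← hrdef]; omega
  by_cases c2 : N + 2 ≤ r ∨ r = 0
  · refine ⟨j0 + N, hj0.add_even ⟨ω, by omega⟩, good_swap ?_⟩
    obtain ⟨p, hp⟩ := hP
    obtain ⟨r', k', hr'1, hr'2, hr'3⟩ : ∃ r' k', 2 ≤ r' ∧ r' ≤ N ∧ r + N = r' + (2 * N) * k' := by
      rcases c2 with c2 | c2
      · exact ⟨r - N, 1, by omega, by omega, by ring⟩
      · exact ⟨N, 0, by omega, by omega, by rw [c2]; ring⟩
    have eY : ((P - 8 * t) * (j0 + N)) % (2 * N) = r' := by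
      apply emod_of_eq (k := q + k' + p - 4 * t) (by omega) (by omega)
      linear_combination hr'3 - hr + N * hp
    have eX : (P * (j0 + N)) % (2 * N) = r' + 4 * h := by
      apply emod_of_eq (k := q + k' + p + k0) (by omega) (by omega)
      linear_combination hr'3 - hr + N * hp + hDj
    apply good_of hNpos
    · rw [eY]; omega
    · rw [eX]; omega
    · rw [eX, eY]; omega
  exfalso
  have hodd : Odd ((P - 8 * t) * j0) := by
    apply Odd.mul _ hj0
    exact hP.sub_even ⟨4 * t, by ring⟩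
  have hrodd : Odd r := by
    rw [← hr] at hodd
    rcases Int.even_or_odd r with he | ho
    · exfalso
      have : Even (r + 2 * N * q) := he.add ⟨N * q, by ring⟩
      exact (Int.not_even_iff_odd.2 hodd) this
    · exact ho
  obtain ⟨s, hs⟩ := hrodd
  have hr2 : r = 1 ∨ r = N + 1 := by omega
  obtain ⟨e, he⟩ : ∃ e, (P - 8 * t) * j0 = 1 + ω * e := by
    rcases hr2 with h1 | h1
    · exact ⟨4 * q, by linear_combination - hr + h1 + 2 * q * hN⟩
    · exact ⟨4 * q + 2, by linear_combination - hr + h1 + (2 * q + 1) * hN⟩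
  -- (P - 4 t) * j0 ≡ 0
  have h5 : (P - 4 * t) * j0 = ω * (e + 2 * k0 + 1) := by
    linear_combination he + 2 * hdj - hh
  have hcop : IsCoprime j0 ω := by
    refine ⟨-4 * t, 2 * k0 + 1, ?_⟩
    linear_combination -2 * hdj + hh
  have h6 : ω ∣ (P - 4 * t) * j0 := ⟨_, h5⟩
  exact hdvd (hcop.symm.dvd_of_dvd_mul_right h6)

theorem r4core {E l t o i u : ℤ} (hE : E = 4 * l ^ 2 - 1) (hl : 1 ≤ l) (ho : 1 ≤ o) (hoo : Odd o)
    (huo : Odd u) (h1 : u * (2 * l - 1) * o ≤ 2 * i) (h2 : 2 * i ≤ u * (2 * l + 1) * o)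
    (h3 : 4 * i ≤ E * o)
    (h4 : (Odd i ∧ 0 ≤ 8 * t * i ∧ 8 * t * i ≤ E * o) ∨
      (Even i ∧ ∃ k, (4 * k + 1) * (E * o) ≤ 8 * t * i ∧ 8 * t * i ≤ (4 * k + 3) * (E * o))) :
    Good (E * o) ((E * o + 4 * t) * i) ((E * o - 4 * t) * i) ∧
    Good (E * o) (2 * (2 * l + 1) * i) (2 * (2 * l - 1) * i) := by
  have hEpos : 0 < E := by rw [hE]; nlinarith
  obtain ⟨N, hN⟩ : ∃ N, N = E * o := ⟨_, rfl⟩
  have hNpos : 0 < N := by rw [hN]; positivity
  rw [← hN] at h3 h4 ⊢
  constructor
  · rcases h4 with ⟨⟨s, hs⟩, h5, h6⟩ | ⟨⟨s, hs⟩, k, h5, h6⟩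
    · have eX : ((N + 4 * t) * i) % (2 * N) = N + 4 * t * i := by
        apply emod_of_eq (k := s) (by linarith) (by linarith)
        rw [hs]; ring
      have eY : ((N - 4 * t) * i) % (2 * N) = N - 4 * t * i := by
        apply emod_of_eq (k := s) (by linarith) (by linarith)
        rw [hs]; ring
      apply good_swap
      apply good_of hNpos
      · rw [eY]; linarith
      · rw [eX]; linarith
      · rw [eX, eY]; linarith
    · have eX : ((N + 4 * t) * i) % (2 * N) = 4 * t * i - 2 * N * k := by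
        apply emod_of_eq (k := s + k) (by linarith) (by linarith)
        rw [hs]; ring
      have eY : ((N - 4 * t) * i) % (2 * N) = 2 * N - (4 * t * i - 2 * N * k) := by
        apply emod_of_eq (k := s - k - 1) (by linarith) (by linarith)
        rw [hs]; ring
      by_cases h7 : 4 * t * i - 2 * N * k ≤ N
      · apply good_of hNpos
        · rw [eX]; linarith
        · rw [eY]; linarith
        · rw [eX, eY]; linarith
      · push Not at h7
        apply good_swap
        apply good_of hNpos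
        · rw [eY]; linarith
        · rw [eX]; linarith
        · rw [eX, eY]; linarith
  · obtain ⟨s, hs⟩ := huo
    have hNodd : Odd N := by
      rw [hN]
      apply Odd.mul _ hoo
      exact ⟨2 * l ^ 2 - 1, by rw [hE]; ring⟩
    obtain ⟨n, hn⟩ := hNodd
    have a1 : u * N ≤ 2 * (2 * l + 1) * i := by
      have : u * N = (2 * l + 1) * (u * (2 * l - 1) * o) := by rw [hN, hE]; ring
      rw [this]
      nlinarith
    have a2 : 2 * (2 * l - 1) * i ≤ u * N := by
      have : u * N = (2 * l - 1) * (u * (2 * l + 1) * o) := by rw [hN, hE]; ring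
      rw [this]
      nlinarith
    have a3 : 2 * (2 * l + 1) * i - 2 * (2 * l - 1) * i = 4 * i := by ring
    have hu : u * N = N + 2 * N * s := by rw [hs]; ring
    have a4 : 4 * i ≠ N := by omega
    have eX : (2 * (2 * l + 1) * i) % (2 * N) = 2 * (2 * l + 1) * i - 2 * N * s := by
      apply emod_of_eq (k := s)
      · linarith
      · have : 4 * i < N := lt_of_le_of_ne h3 a4
        linarith
      · ring
    have eY : (2 * (2 * l - 1) * i) % (2 * N) = 2 * (2 * l - 1) * i - 2 * N * s := by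
      apply emod_of_eq (k := s)
      · linarith
      · linarith
      · ring
    apply good_swap
    apply good_of hNpos
    · rw [eY]; linarith
    · rw [eX]; linarith
    · rw [eX, eY]; linarith

theorem r4 {l t o e : ℤ} (hl : 1 ≤ l) (ht : 1 ≤ t) (ho : 1 ≤ o) (hoo : Odd o) (he : Odd e)
    (hlt : l = t * e) :
    GG ((4 * l ^ 2 - 1) * o + 4 * t) ((4 * l ^ 2 - 1) * o - 4 * t) (2 * (2 * l + 1))
      (2 * (2 * l - 1)) ∨ (l = 1 ∧ (o = 1 ∨ o = 5)) := by
  have hepos : 1 ≤ e := by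
    by_contra h
    push Not at h
    have : t * e ≤ 0 := mul_nonpos_of_nonneg_of_nonpos (by omega) (by omega)
    omega
  have fin : ∀ i u : ℤ, Odd u → u * (2 * l - 1) * o ≤ 2 * i → 2 * i ≤ u * (2 * l + 1) * o →
      4 * i ≤ (4 * l ^ 2 - 1) * o →
      ((Odd i ∧ 0 ≤ 8 * t * i ∧ 8 * t * i ≤ (4 * l ^ 2 - 1) * o) ∨
      (Even i ∧ ∃ k, (4 * k + 1) * ((4 * l ^ 2 - 1) * o) ≤ 8 * t * i ∧
        8 * t * i ≤ (4 * k + 3) * ((4 * l ^ 2 - 1) * o))) →
      GG ((4 * l ^ 2 - 1) * o + 4 * t) ((4 * l ^ 2 - 1) * o - 4 * t) (2 * (2 * l + 1))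
      (2 * (2 * l - 1)) := by
    intro i u huo h1 h2 h3 h4
    have := r4core (E := 4 * l ^ 2 - 1) rfl hl ho hoo huo h1 h2 h3 h4
    refine ⟨(4 * l ^ 2 - 1) * o, ?_, i, this.1, this.2⟩
    have : 0 < 4 * l ^ 2 - 1 := by nlinarith
    positivity
  obtain ⟨o', ho'⟩ := hoo
  obtain ⟨e', he'⟩ := he
  rcases eq_or_lt_of_le hepos with he1 | he1
  · -- e = 1
    have htl : t = l := by rw [hlt, ← he1]; ring
    rcases eq_or_lt_of_le hl with hl1 | hl1
    · -- l = 1
      by_cases ho1 : o = 1 ∨ o = 5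
      · right; exact ⟨hl1.symm, ho1⟩
      · left
        have hl1' : l = 1 := hl1.symm
        have ht1 : t = 1 := by omega
        rcases Int.even_or_odd o' with ⟨s, hs⟩ | ⟨s, hs⟩
        · apply fin (2 * s + 2) 1 odd_one
          · rw [hl1']; omega
          · rw [hl1']; omega
          · rw [hl1']; omega
          · right
            refine ⟨⟨s + 1, by ring⟩, 0, ?_, ?_⟩
            · rw [hl1', ht1]; omega
            · rw [hl1', ht1]; omega
        · apply fin (2 * s + 2) 1 odd_one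
          · rw [hl1']; omega
          · rw [hl1']; omega
          · rw [hl1']; omega
          · right
            refine ⟨⟨s + 1, by ring⟩, 0, ?_, ?_⟩
            · rw [hl1', ht1]; omega
            · rw [hl1', ht1]; omega
    · left
      rcases Int.even_or_odd l with hle | hlo
      · -- l even
        apply fin (l * o) 1 odd_one
        · nlinarith
        · nlinarith
        · have : 4 * l ≤ 4 * l ^ 2 - 1 := by nlinarith
          nlinarith
        · right
          refine ⟨hle.mul_right o, 0, ?_, ?_⟩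
          · rw [htl]; nlinarith
          · rw [htl]
            have : 8 * l ^ 2 ≤ 3 * (4 * l ^ 2 - 1) := by nlinarith
            nlinarith
      · have hl3 : 3 ≤ l := by obtain ⟨a, ha⟩ := hlo; omega
        rcases eq_or_lt_of_le ho with ho1 | ho1
        · -- o = 1
          apply fin (3 * l - 1) 3 ⟨1, by norm_num⟩
          · rw [← ho1]; omega
          · rw [← ho1]; omega
          · rw [← ho1]; nlinarith
          · right
            refine ⟨?_, 1, ?_, ?_⟩
            · obtain ⟨a, ha⟩ := hlo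
              exact ⟨3 * a + 1, by rw [ha]; ring⟩
            · rw [htl, ← ho1]; nlinarith
            · rw [htl, ← ho1]; nlinarith
        · have ho3 : 3 ≤ o := by omega
          apply fin (l * o - 1) 1 odd_one
          · nlinarith
          · nlinarith
          · have : 4 * l ≤ 4 * l ^ 2 - 1 := by nlinarith
            nlinarith
          · right
            refine ⟨?_, 0, ?_, ?_⟩
            · have : Odd (l * o) := hlo.mul ⟨o', ho'⟩
              exact this.sub_odd odd_one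
            · rw [htl]
              have : 8 * l ≤ (4 * l ^ 2 + 1) * o := by nlinarith
              nlinarith
            · rw [htl]
              have : 8 * l ^ 2 ≤ 3 * (4 * l ^ 2 - 1) := by nlinarith
              nlinarith
  · have he3 : 3 ≤ e := by omega
    left
    have htl3 : 3 * t ≤ l := by rw [hlt]; nlinarith
    rcases Int.even_or_odd l with hle | hlo
    · have hte : Even t := by
        rw [hlt] at hle
        rcases Int.even_mul.1 hle with h | h
        · exact h
        · exfalso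
          exact (Int.not_even_iff_odd.2 ⟨e', he'⟩) h
      have ht2 : 2 ≤ t := by obtain ⟨a, ha⟩ := hte; omega
      have hl6 : 6 ≤ l := by omega
      rcases eq_or_lt_of_le ho with ho1 | ho1
      · -- o = 1
        by_cases he5 : e ≤ 5
        · apply fin (3 * l) 3 ⟨1, by norm_num⟩
          · rw [← ho1]; omega
          · rw [← ho1]; omega
          · rw [← ho1]; nlinarith
          · right
            refine ⟨hle.mul_left 3, 0, ?_, ?_⟩
            · rw [← ho1]
              have : l ≤ 5 * t := by rw [hlt]; nlinarith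
              nlinarith
            · rw [← ho1]
              nlinarith
        · have he7 : 7 ≤ e := by omega
          have htl7 : 7 * t ≤ l := by rw [hlt]; nlinarith
          apply fin (3 * l - 1) 3 ⟨1, by norm_num⟩
          · rw [← ho1]; omega
          · rw [← ho1]; omega
          · rw [← ho1]; nlinarith
          · left
            refine ⟨?_, ?_, ?_⟩
            · exact (hle.mul_left 3).sub_odd odd_one
            · have : 0 ≤ 3 * l - 1 := by omega
              positivity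
            · rw [← ho1]
              nlinarith
      · have ho3 : 3 ≤ o := by omega
        apply fin (l * o - 1) 1 odd_one
        · nlinarith
        · nlinarith
        · have : 4 * l ≤ 4 * l ^ 2 - 1 := by nlinarith
          nlinarith
        · left
          refine ⟨?_, ?_, ?_⟩
          · exact (hle.mul_right o).sub_odd odd_one
          · have : 0 ≤ l * o - 1 := by nlinarith
            positivity
          · have h8 : 8 * t * l ≤ 4 * l ^ 2 - 1 := by nlinarith
            have h9 : 8 * t * l * o ≤ (4 * l ^ 2 - 1) * o := by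
              apply mul_le_mul_of_nonneg_right h8; omega
            nlinarith
    · have hl3 : 3 ≤ l := by omega
      apply fin (l * o) 1 odd_one
      · nlinarith
      · nlinarith
      · have : 4 * l ≤ 4 * l ^ 2 - 1 := by nlinarith
        nlinarith
      · left
        refine ⟨hlo.mul ⟨o', ho'⟩, by positivity, ?_⟩
        have h8 : 8 * t * l ≤ 4 * l ^ 2 - 1 := by nlinarith
        have h9 : 8 * t * l * o ≤ (4 * l ^ 2 - 1) * o := by
          apply mul_le_mul_of_nonneg_right h8; omega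
        nlinarith

theorem half_pattern (m : ℕ) (hm : 0 < m) (L : List ℕ) {x y x' y' : ℤ}
    (hc : 2 * ((Finset.range m).filter (fun i => i ∈ L)).card ≤ m)
    (h1 : ∀ r ∈ Finset.range m, r ∈ L ∨ (((r : ℤ) + x) % m).toNat ∈ L ∨
      (((r : ℤ) + y) % m).toNat ∈ L)
    (h2 : ∀ r ∈ Finset.range m, r ∈ L ∨ (((r : ℤ) + x') % m).toNat ∈ L ∨
      (((r : ℤ) + y') % m).toNat ∈ L) : Half x y x' y' := by
  obtain ⟨X, hX⟩ : ∃ X : Set ℤ, X = {i : ℤ | (i % m).toNat ∈ L} := ⟨_, rfl⟩
  have memX : ∀ i : ℤ, i ∈ X ↔ (i % m).toNat ∈ L := by intro i; rw [hX]; rfl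
  have hit : ∀ x y : ℤ, (∀ r ∈ Finset.range m, r ∈ L ∨ (((r : ℤ) + x) % m).toNat ∈ L ∨
      (((r : ℤ) + y) % m).toNat ∈ L) → Hit X x y := by
    intro x y h t
    have h0 := Int.emod_nonneg t (show (m : ℤ) ≠ 0 by omega)
    have h1 := Int.emod_lt_of_pos t (show 0 < (m : ℤ) by omega)
    have := h (t % m).toNat (by rw [Finset.mem_range]; omega)
    rw [Int.toNat_of_nonneg h0, Int.emod_add_emod, Int.emod_add_emod] at this
    rw [memX, memX, memX]
    exact this
  refine ⟨m, hm, X, ?_, ?_, hit _ _ h1, hit _ _ h2⟩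
  · intro i
    rw [memX, memX, Int.add_emod_right]
  · refine le_trans (le_of_eq ?_) hc
    congr 1
    rw [Nat.count_eq_card_filter_range]
    congr 1
    apply Finset.filter_congr
    intro i hi
    rw [Finset.mem_range] at hi
    rw [memX, Int.emod_eq_of_lt (by omega) (by omega), Int.toNat_natCast]

theorem half_exc {l t o : ℤ} (hl : l = 1 ∨ l = -1) (ht : t = 1 ∨ t = -1)
    (ho : o = 1 ∨ o = -1 ∨ o = 5 ∨ o = -5) :
    Half (3 * o + 4 * t) (3 * o - 4 * t) (2 * (2 * l + 1)) (2 * (2 * l - 1)) := by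
  rcases hl with rfl | rfl <;> rcases ht with rfl | rfl <;> rcases ho with rfl | rfl | rfl | rfl
  all_goals first
    | exact half_pattern 10 (by norm_num) [0, 1, 3, 4, 8] (by decide) (by decide) (by decide)
    | exact half_pattern 10 (by norm_num) [0, 9, 7, 6, 2] (by decide) (by decide) (by decide)
    | exact half_pattern 5 (by norm_num) [0, 2] (by decide) (by decide) (by decide)

theorem r2pos {n P t e l : ℤ} (hn : 2 ∣ n) (hnpos : 0 < n) (hPn : IsCoprime P n) (hP : Odd P)
    (he : Odd e) (hl : l = t * e) (hl1 : 1 ≤ l) :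
    GG P (P - 4 * n * t) (n * (2 * l + 1)) (n * (2 * l - 1)) ∨
    (n = 2 ∧ l = 1 ∧ (t = 1 ∨ t = -1) ∧ ∃ o : ℤ, (o = 1 ∨ o = -1 ∨ o = 5 ∨ o = -5) ∧
      P - 4 * t = 3 * o) := by
  obtain ⟨n', hn'⟩ := hn
  have cop1 : IsCoprime (2 * t) (2 * l + 1) := ⟨-e, 1, by rw [hl]; ring⟩
  have cop2 : IsCoprime (2 * t) (2 * l - 1) := ⟨e, -1, by rw [hl]; ring⟩
  by_cases hn4 : 4 ≤ n
  · left
    obtain ⟨j, hj, hg⟩ := lemmaRot (N := n * (2 * l + 1)) (r := n) (M := 2 * (2 * l + 1))
      (f := 2 * n) (ω := 2 * l + 1) (d := 2 * t) (P := P) (D := 4 * n * t) (by positivity)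
      (by ring) (by ring) ⟨_, rfl⟩ hn4 (by omega) (by omega) ⟨l, rfl⟩ hPn ⟨4 * t, by ring⟩
      (by ring) cop1
    obtain ⟨k, hk⟩ := hj
    exact ⟨n * (2 * l + 1), by positivity, j, hg, anti1 (k := k) (by positivity) (by rw [hk])⟩
  · have hn2 : n = 2 := by omega
    subst hn2
    by_cases hd1 : (2 * l + 1) ∣ P - 4 * t
    swap
    · left
      obtain ⟨j, hj, hg⟩ := lemmaR3 (ω := 2 * l + 1) (t := t) (P := P) (by omega) ⟨l, rfl⟩ cop1 hP
        hd1
      obtain ⟨k, hk⟩ := hj
      rw [show P - 4 * 2 * t = P - 8 * t by ring]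
      exact ⟨2 * (2 * l + 1), by positivity, j, hg, anti1 (k := k) (by positivity) (by rw [hk])⟩
    by_cases hd2 : (2 * l - 1) ∣ P - 4 * t
    swap
    · left
      have hl2 : 2 ≤ l := by
        by_contra h
        apply hd2
        rw [show l = 1 by omega]
        exact ⟨P - 4 * t, by ring⟩
      obtain ⟨j, hj, hg⟩ := lemmaR3 (ω := 2 * l - 1) (t := t) (P := P) (by omega)
        ⟨l - 1, by ring⟩ cop2 hP hd2
      obtain ⟨k, hk⟩ := hj
      rw [show P - 4 * 2 * t = P - 8 * t by ring]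
      exact ⟨2 * (2 * l - 1), by omega, j, hg, anti2 (k := k) (by omega) (by rw [hk])⟩
    have hcop : IsCoprime (2 * l + 1) (2 * l - 1) := ⟨l, -l-1, by ring⟩
    obtain ⟨o, ho⟩ := hcop.mul_dvd hd1 hd2
    have hE : (2 * l + 1) * (2 * l - 1) = 4 * l ^ 2 - 1 := by ring
    rw [hE] at ho
    have hoo : Odd o := by
      have : Odd ((4 * l ^ 2 - 1) * o) := by
        rw [← ho]
        exact hP.sub_even ⟨2 * t, by ring⟩
      exact (Int.odd_mul.1 this).2
    have hPe : P = (4 * l ^ 2 - 1) * o + 4 * t := by linear_combination ho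
    have hQe : P - 4 * 2 * t = (4 * l ^ 2 - 1) * o - 4 * t := by linear_combination ho
    rw [hQe, hPe]
    have ho0 : o ≠ 0 := by rintro rfl; simp at hoo
    have ht0 : t ≠ 0 := by rintro rfl; rw [zero_mul] at hl; omega
    -- the statement for |t| and |o|
    have hdiv : t ∣ l := ⟨e, hl⟩
    rcases lt_or_gt_of_ne ho0 with ho1 | ho1 <;> rcases lt_or_gt_of_ne ht0 with ht1 | ht1
    · rcases r4 (l := l) (t := -t) (o := -o) (e := -e) hl1 (by omega) (by omega) hoo.neg he.neg
        (by rw [hl]; ring) with h | ⟨h1, h2⟩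
      · left
        have := gg_neg1 h
        rw [show -((4 * l ^ 2 - 1) * -o + 4 * -t) = (4 * l ^ 2 - 1) * o + 4 * t by ring,
          show -((4 * l ^ 2 - 1) * -o - 4 * -t) = (4 * l ^ 2 - 1) * o - 4 * t by ring] at this
        exact this
      · right
        refine ⟨rfl, h1, ?_, o, by omega, ?_⟩
        · have : t ∣ 1 := h1 ▸ hdiv
          exact Int.isUnit_iff.1 (isUnit_of_dvd_one this)
        · rw [h1]; ring
    · rcases r4 (l := l) (t := t) (o := -o) (e := e) hl1 (by omega) (by omega) hoo.neg he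
        hl with h | ⟨h1, h2⟩
      · left
        have := gg_swap1 (gg_neg1 h)
        rw [show -((4 * l ^ 2 - 1) * -o + 4 * t) = (4 * l ^ 2 - 1) * o - 4 * t by ring,
          show -((4 * l ^ 2 - 1) * -o - 4 * t) = (4 * l ^ 2 - 1) * o + 4 * t by ring] at this
        exact this
      · right
        refine ⟨rfl, h1, ?_, o, by omega, ?_⟩
        · have : t ∣ 1 := h1 ▸ hdiv
          exact Int.isUnit_iff.1 (isUnit_of_dvd_one this)
        · rw [h1]; ring
    · rcases r4 (l := l) (t := -t) (o := o) (e := -e) hl1 (by omega) (by omega) hoo he.neg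
        (by rw [hl]; ring) with h | ⟨h1, h2⟩
      · left
        have := gg_swap1 h
        rw [show ((4 * l ^ 2 - 1) * o + 4 * -t) = (4 * l ^ 2 - 1) * o - 4 * t by ring,
          show ((4 * l ^ 2 - 1) * o - 4 * -t) = (4 * l ^ 2 - 1) * o + 4 * t by ring] at this
        exact this
      · right
        refine ⟨rfl, h1, ?_, o, by omega, ?_⟩
        · have : t ∣ 1 := h1 ▸ hdiv
          exact Int.isUnit_iff.1 (isUnit_of_dvd_one this)
        · rw [h1]; ring
    · rcases r4 (l := l) (t := t) (o := o) (e := e) hl1 (by omega) (by omega) hoo he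
        hl with h | ⟨h1, h2⟩
      · left
        exact h
      · right
        refine ⟨rfl, h1, ?_, o, by omega, ?_⟩
        · have : t ∣ 1 := h1 ▸ hdiv
          exact Int.isUnit_iff.1 (isUnit_of_dvd_one this)
        · rw [h1]; ring

theorem r2 {n P t e l : ℤ} (hn : 2 ∣ n) (hnpos : 0 < n) (hPn : IsCoprime P n) (hP : Odd P)
    (ht : t ≠ 0) (he : Odd e) (hl : l = t * e) :
    Half P (P - 4 * n * t) (n * (2 * l + 1)) (n * (2 * l - 1)) := by
  have hl0 : l ≠ 0 := by
    rw [hl]
    apply mul_ne_zero ht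
    rintro rfl
    simp at he
  have fin : ∀ l' : ℤ, (l' = 1 ∨ l' = -1) → n = 2 → (t = 1 ∨ t = -1) →
      (∃ o : ℤ, (o = 1 ∨ o = -1 ∨ o = 5 ∨ o = -5) ∧ P - 4 * t = 3 * o) →
      Half P (P - 4 * n * t) (n * (2 * l' + 1)) (n * (2 * l' - 1)) := by
    intro l' h1 h2 h3 ⟨o, h4, h5⟩
    have := half_exc h1 h3 h4
    rw [h2, show P = 3 * o + 4 * t by linear_combination h5,
      show 3 * o + 4 * t - 4 * 2 * t = 3 * o - 4 * t by ring]
    exact this
  rcases lt_or_gt_of_ne hl0 with h | h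
  · rcases r2pos (l := -l) (e := -e) (t := t) hn hnpos hPn hP he.neg (by rw [hl]; ring)
      (by omega) with h1 | ⟨h2, h3, h4, h5⟩
    · apply half_of_gg
      have := gg_swap2 (gg_neg2 h1)
      rw [show -(n * (2 * -l + 1)) = n * (2 * l - 1) by ring,
        show -(n * (2 * -l - 1)) = n * (2 * l + 1) by ring] at this
      exact this
    · exact fin l (by omega) h2 h4 h5
  · rcases r2pos (l := l) (e := e) (t := t) hn hnpos hPn hP he hl
      (by omega) with h1 | ⟨h2, h3, h4, h5⟩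
    · exact half_of_gg h1
    · exact fin l (by omega) h2 h4 h5

theorem resid' {v : ℕ} {x y P Q c2 e D : ℤ} (hv : 1 ≤ v) (hP : Odd P)
    (hxy : x - y = 2 * c2) (hc2 : Odd c2) (hc2pos : 0 < c2) (hD : P - Q = D) (hD0 : D ≠ 0)
    (he : Odd e) (hsum : 2 ^ v * (x + y) = D * e) (hDd : (2 : ℤ) ^ (v + 2) ∣ D) :
    Half P Q (2 ^ v * x) (2 ^ v * y) := by
  obtain ⟨D', hD'⟩ := hDd
  have hpv : (0 : ℤ) < 2 ^ v := by positivity
  have h2v : (2 : ℤ) ^ (v + 1) = 2 * 2 ^ v := by ring
  have h2v2 : (2 : ℤ) ^ (v + 2) = 4 * 2 ^ v := by ring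
  by_cases hdv : c2 ∣ D'
  · obtain ⟨t, ht⟩ := hdv
    have ht0 : t ≠ 0 := by
      rintro rfl
      apply hD0
      rw [hD', ht]; ring
    obtain ⟨l, hl⟩ : ∃ l, l = t * e := ⟨_, rfl⟩
    have hs : x + y = 4 * c2 * l := by
      have : (2 : ℤ) ^ v * (x + y) = 2 ^ v * (4 * c2 * l) := by
        rw [hsum, hD', ht, hl, h2v2]; ring
      exact mul_left_cancel₀ hpv.ne' this
    have hx : x = c2 * (2 * l + 1) := by linarith
    have hy : y = c2 * (2 * l - 1) := by linarith
    obtain ⟨n, hn⟩ : ∃ n, n = 2 ^ v * c2 := ⟨_, rfl⟩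
    have hnpos : 0 < n := by rw [hn]; positivity
    have hgpos : 0 < Int.gcd P n := Int.gcd_pos_of_ne_zero_right _ hnpos.ne'
    obtain ⟨P', n', hcop, hP', hn'⟩ := Int.exists_gcd_one hgpos
    obtain ⟨g, hg⟩ : ∃ g : ℤ, g = (Int.gcd P n : ℤ) := ⟨_, rfl⟩
    rw [← hg] at hP' hn'
    have hg0 : 0 < g := by rw [hg]; exact_mod_cast hgpos
    have hn'pos : 0 < n' := by
      by_contra h
      push Not at h
      have : n' * g ≤ 0 := mul_nonpos_of_nonpos_of_nonneg h hg0.le
      omega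
    have hPo : Odd (P' * g) := by rw [← hP']; exact hP
    have hgo : Odd g := (Int.odd_mul.1 hPo).2
    have hP'o : Odd P' := (Int.odd_mul.1 hPo).1
    have hneven : Even n := by
      rw [hn]
      apply Even.mul_right
      exact (Int.even_pow.2 ⟨even_two, by omega⟩)
    have hn'even : 2 ∣ n' := by
      rw [hn'] at hneven
      rcases Int.even_mul.1 hneven with h | h
      · exact h.two_dvd
      · exfalso; exact (Int.not_even_iff_odd.2 hgo) h
    have := half_scale g hg0 (r2 (n := n') (P := P') (t := t) (e := e) (l := l) hn'even hn'pos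
      (Int.isCoprime_iff_gcd_eq_one.2 hcop) hP'o ht0 he hl)
    have e1 : g * P' = P := by rw [hP']; ring
    have e2 : g * (P' - 4 * n' * t) = Q := by
      have : Q = P - D := by linarith
      rw [this, hD', ht, h2v2]
      have : (4 : ℤ) * 2 ^ v * (c2 * t) = 4 * n * t := by rw [hn]; ring
      rw [this, hn', hP']; ring
    have e3 : g * (n' * (2 * l + 1)) = 2 ^ v * x := by
      rw [hx]
      have : (2 : ℤ) ^ v * (c2 * (2 * l + 1)) = n * (2 * l + 1) := by rw [hn]; ring
      rw [this, hn']; ring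
    have e4 : g * (n' * (2 * l - 1)) = 2 ^ v * y := by
      rw [hy]
      have : (2 : ℤ) ^ v * (c2 * (2 * l - 1)) = n * (2 * l - 1) := by rw [hn]; ring
      rw [this, hn']; ring
    rw [e1, e2, e3, e4] at this
    exact this
  · have hgpos : 0 < Int.gcd D' c2 := Int.gcd_pos_of_ne_zero_right _ hc2pos.ne'
    obtain ⟨d, ω, hcop, hd, hω⟩ := Int.exists_gcd_one hgpos
    obtain ⟨g, hg⟩ : ∃ g : ℤ, g = (Int.gcd D' c2 : ℤ) := ⟨_, rfl⟩
    rw [← hg] at hd hω
    have hg0 : 0 < g := by rw [hg]; exact_mod_cast hgpos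
    have hωpos : 0 < ω := by
      by_contra h
      push Not at h
      have : ω * g ≤ 0 := mul_nonpos_of_nonpos_of_nonneg h hg0.le
      omega
    have hωo : Odd ω := by
      rw [hω] at hc2
      exact (Int.odd_mul.1 hc2).1
    have hω1 : ω ≠ 1 := by
      intro h
      apply hdv
      rw [hω, h, hd]
      exact ⟨d, by ring⟩
    have hω3 : 3 ≤ ω := by obtain ⟨a, ha⟩ := hωo; omega
    have hPr : IsCoprime P ((2 : ℤ) ^ (v + 1)) := by
      apply IsCoprime.pow_right
      obtain ⟨k, rfl⟩ := hP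
      exact ⟨1, -k, by ring⟩
    obtain ⟨j, hj, hgood⟩ := lemmaRot (N := 2 ^ (v + 1) * c2) (r := 2 ^ (v + 1)) (M := 2 * c2)
      (f := 2 ^ (v + 2) * g) (ω := ω) (d := d) (P := P) (D := D) (by positivity) (by ring)
      (by rw [hω, h2v, h2v2]; ring) ⟨_, rfl⟩ (by
        calc (4 : ℤ) = 2 ^ 2 := by norm_num
          _ ≤ 2 ^ (v + 1) := pow_le_pow_right₀ (by norm_num) (by omega)) (by positivity) hω3 hωo
      hPr ⟨2 * D', by rw [hD', h2v, h2v2]; ring⟩ (by rw [hD', hd]; ring)
      (Int.isCoprime_iff_gcd_eq_one.2 hcop)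
    apply half_of_gg
    obtain ⟨k, hk⟩ := hj
    refine ⟨2 ^ (v + 1) * c2, by positivity, j, ?_, anti3 (k := k) (by positivity) ?_⟩
    · rw [show Q = P - D by linarith]
      exact hgood
    · rw [← hk, h2v]
      linear_combination (2 ^ v * j) * hxy

theorem resid {v : ℕ} {x y P Q c2 e D : ℤ} (hv : 1 ≤ v) (hP : Odd P)
    (hxy : x - y = 2 * c2) (hc2 : Odd c2) (hD : P - Q = D) (hD0 : D ≠ 0)
    (he : Odd e) (hsum : 2 ^ v * (x + y) = D * e) (hDd : (2 : ℤ) ^ (v + 2) ∣ D) :
    Half P Q (2 ^ v * x) (2 ^ v * y) := by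
  rcases lt_trichotomy c2 0 with h | h | h
  · apply half_swap2
    exact resid' hv hP (by linarith : y - x = 2 * (-c2)) hc2.neg (by omega) hD hD0 he
      (by rw [← hsum]; ring) hDd
  · rw [h] at hc2; simp at hc2
  · exact resid' hv hP hxy hc2 h hD hD0 he hsum hDd

theorem two_pow_factor {z : ℤ} (hz : z ≠ 0) : ∃ (a : ℕ) (c : ℤ), Odd c ∧ z = 2 ^ a * c := by
  obtain ⟨k, m, hm, h⟩ := Nat.exists_eq_two_pow_mul_odd (n := z.natAbs) (by omega)
  have hm' : Odd (m : ℤ) := by exact_mod_cast hm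
  have h' : (z.natAbs : ℤ) = 2 ^ k * m := by rw [h]; push_cast; ring
  rcases Int.natAbs_eq z with h1 | h1
  · exact ⟨k, m, hm', by rw [h1, h']⟩
  · exact ⟨k, -m, hm'.neg, by rw [h1, h']; ring⟩

theorem two_pow_factor' {z : ℤ} (hz : z ≠ 0) (he : Even z) :
    ∃ (a : ℕ) (c : ℤ), 1 ≤ a ∧ Odd c ∧ z = 2 ^ a * c := by
  obtain ⟨a, c, hc, h⟩ := two_pow_factor hz
  refine ⟨a, c, ?_, hc, h⟩
  by_contra h0
  have ha : a = 0 := by omega
  rw [ha, pow_zero, one_mul] at h
  rw [h] at he
  exact (Int.not_even_iff_odd.2 hc) he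

theorem half_main {v : ℕ} {P Q x y : ℤ} (hP : Odd P) (hQ : Odd Q) (hPQ : P ≠ Q) (hx : Odd x)
    (hy : Odd y) (hxy : x ≠ y) : Half P Q (2 ^ v * x) (2 ^ v * y) := by
  rcases Nat.eq_zero_or_pos v with hv | hv
  · obtain ⟨k1, hk1⟩ := hP
    obtain ⟨k2, hk2⟩ := hx
    apply half_of_gg
    refine ⟨1, one_pos, 1, anti1 (k := k1) one_pos (by rw [hk1]; ring), 
      anti1 (k := k2) one_pos (by rw [hk2, hv]; ring)⟩
  obtain ⟨a, c1, ha, hc1, hD⟩ := two_pow_factor' (sub_ne_zero.2 hPQ) (hP.sub_odd hQ)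
  obtain ⟨b, c2, hb, hc2, hd⟩ := two_pow_factor' (sub_ne_zero.2 hxy) (hx.sub_odd hy)
  have c1pos : 0 < |c1| := abs_pos.2 (by rintro rfl; simp at hc1)
  have c2pos : 0 < |c2| := abs_pos.2 (by rintro rfl; simp at hc2)
  have xpos : 0 < |x| := abs_pos.2 (by rintro rfl; simp at hx)
  have absodd : ∀ c j : ℤ, Odd c → Odd j → ∃ k, c * j = |c| * (2 * k + 1) := by
    intro c j _ hj
    obtain ⟨k, hk⟩ := hj
    rcases abs_choice c with h | h
    · exact ⟨k, by rw [h, hk]⟩
    · exact ⟨-k - 1, by rw [h, hk]; ring⟩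
  rcases lt_trichotomy a (v + b) with hlt | heq | hgt
  · -- a < v + b
    by_cases hav : a = v
    · obtain ⟨k1, hk1⟩ := hc1
      obtain ⟨k2, hk2⟩ := hx
      apply half_of_gg
      refine ⟨2 ^ v, by positivity, 1, anti3 (k := k1) (by positivity) ?_,
        anti1 (k := k2) (by positivity) ?_⟩
      · rw [mul_one, mul_one, hD, hk1, hav]
      · rw [hk2, mul_one]
    · have hN : (0 : ℤ) < 2 ^ (v + b) * |c2| := by positivity
      have hdvd : (2 : ℤ) ^ (a + 1) ∣ 2 ^ (v + b) * |c2| :=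
        Dvd.dvd.mul_right (pow_dvd_pow 2 (by omega)) _
      rcases lemmaK a hN ha hdvd hP hQ hc1 hD with ⟨j, hj, hg⟩ | ⟨ha1, hmod⟩
      · apply half_of_gg
        obtain ⟨k, hk⟩ := absodd c2 j hc2 hj
        refine ⟨_, hN, j, hg, anti3 (k := k) hN ?_⟩
        rw [pow_add]
        linear_combination (2 ^ v * j) * hd + (2 ^ v * 2 ^ b) * hk
      · have hN2 : (0 : ℤ) < 2 ^ v * |x| := by positivity
        have hdvd2 : (2 : ℤ) ^ (a + 1) ∣ 2 ^ v * |x| :=
          Dvd.dvd.mul_right (pow_dvd_pow 2 (by omega)) _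
        rcases lemmaK a hN2 ha hdvd2 hP hQ hc1 hD with ⟨j, hj, hg⟩ | ⟨_, hmod2⟩
        · apply half_of_gg
          obtain ⟨k, hk⟩ := absodd x j hx hj
          refine ⟨_, hN2, j, hg, anti1 (k := k) hN2 ?_⟩
          rw [mul_assoc, mul_assoc, ← hk]
        · exfalso
          have e1 := Int.emod_add_mul_ediv (P + Q) (2 * (2 ^ (v + b) * |c2|))
          have e2 := Int.emod_add_mul_ediv (P + Q) (2 * (2 ^ v * |x|))
          rw [hmod] at e1
          rw [hmod2] at e2
          obtain ⟨q1, hq1⟩ : ∃ q1, q1 = (P + Q) / (2 * (2 ^ (v + b) * |c2|)) := ⟨_, rfl⟩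
          obtain ⟨q2, hq2⟩ : ∃ q2, q2 = (P + Q) / (2 * (2 ^ v * |x|)) := ⟨_, rfl⟩
          rw [← hq1] at e1
          rw [← hq2] at e2
          have e3 : (2 : ℤ) ^ v * (|x| * (2 * q2 + 1)) = 2 ^ v * (2 ^ b * |c2| * (2 * q1 + 1)) := by
            rw [pow_add] at e1
            linear_combination e2 - e1
          have e4 := mul_left_cancel₀ (by positivity) e3
          have o1 : Odd (|x| * (2 * q2 + 1)) := (odd_abs.2 hx).mul ⟨q2, rfl⟩
          have o2 : Even (2 ^ b * |c2| * (2 * q1 + 1)) := by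
            apply Even.mul_right
            apply Even.mul_right
            exact Int.even_pow.2 ⟨even_two, by omega⟩
          rw [← e4] at o2
          exact (Int.not_even_iff_odd.2 o1) o2
  · -- a = v + b
    obtain ⟨k1, hk1⟩ := hc1
    obtain ⟨k2, hk2⟩ := hc2
    apply half_of_gg
    refine ⟨2 ^ a, by positivity, 1, anti3 (k := k1) (by positivity) ?_,
      anti3 (k := k2) (by positivity) ?_⟩
    · rw [mul_one, mul_one, hD, hk1]
    · rw [mul_one, mul_one, ← mul_sub, hd, hk2, heq, pow_add]; ring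
  · -- a > v + b
    obtain ⟨s, hs⟩ : ∃ s, a = v + s := ⟨a - v, by omega⟩
    have hN' : (0 : ℤ) < 2 ^ s * |c1| := by positivity
    have hdvd : (2 : ℤ) ^ (b + 1) ∣ 2 ^ s * |c1| :=
      Dvd.dvd.mul_right (pow_dvd_pow 2 (by omega)) _
    rcases lemmaK b hN' hb hdvd hx hy hc2 hd with ⟨j, hj, hg⟩ | ⟨hb1, hmod⟩
    · apply half_of_gg
      obtain ⟨k, hk⟩ := absodd c1 j hc1 hj
      refine ⟨2 ^ v * (2 ^ s * |c1|), by positivity, j, anti3 (k := k) (by positivity) ?_, ?_⟩
      · rw [mul_assoc, mul_assoc, ← hk, ← sub_mul, hD, hs, pow_add]; ring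
      · rw [mul_assoc, mul_assoc]
        exact good_scale hN' (by positivity) hg
    · have e1 := Int.emod_add_mul_ediv (x + y) (2 * (2 ^ s * |c1|))
      rw [hmod] at e1
      obtain ⟨q, hq⟩ : ∃ q, q = (x + y) / (2 * (2 ^ s * |c1|)) := ⟨_, rfl⟩
      rw [← hq] at e1
      have hqo : Odd (2 * q + 1) := ⟨q, rfl⟩
      have h1 : ∃ e, Odd e ∧ |c1| * (2 * q + 1) = c1 * e := by
        rcases abs_choice c1 with h | h
        · exact ⟨2 * q + 1, hqo, by rw [h]⟩
        · exact ⟨-(2 * q + 1), hqo.neg, by rw [h]; ring⟩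
      obtain ⟨e, he, hce⟩ := h1
      refine resid (v := v) (c2 := c2) (e := e) (D := P - Q) hv hP ?_ hc2 rfl
        (sub_ne_zero.2 hPQ) he ?_ ?_
      · rw [hd, hb1, pow_one]
      · rw [hD, hs, pow_add, ← e1]
        linear_combination (2 ^ v * 2 ^ s) * hce
      · rw [hD]
        exact Dvd.dvd.mul_right (pow_dvd_pow 2 (by omega)) _

/-- every 3-ship is a translate of `2^k {0, x, y}` with `x`, `y` odd and distinct -/
theorem normal_form {a b : ℤ} (ha : a ≠ 0) (hb : b ≠ 0) (hab : a ≠ b) :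
    ∃ (k : ℕ) (x y : ℤ), Odd x ∧ Odd y ∧ x ≠ y ∧ ∀ X : Set ℤ, Hit X (2 ^ k * x) (2 ^ k * y) →
      Hit X a b := by
  obtain ⟨r, a', ha', h1⟩ := two_pow_factor ha
  obtain ⟨s, b', hb', h2⟩ := two_pow_factor hb
  rcases lt_trichotomy r s with h | h | h
  · obtain ⟨d, hd⟩ : ∃ d, s = r + (d + 1) := ⟨s - r - 1, by omega⟩
    refine ⟨r, 2 ^ (d + 1) * b' - a', -a', ?_, ha'.neg, ?_, ?_⟩
    · apply Even.sub_odd _ ha'
      apply Even.mul_right
      exact Int.even_pow.2 ⟨even_two, by omega⟩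
    · intro h3
      have : (2 : ℤ) ^ (d + 1) * b' = 0 := by linarith
      rcases mul_eq_zero.1 this with h4 | h4
      · exact absurd h4 (by positivity)
      · rw [h4] at hb'; simp at hb'
    · intro X hX
      rw [hit_recenter, h1, h2, hd, pow_add]
      rw [show (2 : ℤ) ^ r * (2 ^ (d + 1) * b' - a') = 2 ^ r * 2 ^ (d + 1) * b' - 2 ^ r * a' by ring,
        show (2 : ℤ) ^ r * -a' = -(2 ^ r * a') by ring] at hX
      exact hX
  · refine ⟨r, a', b', ha', hb', ?_, ?_⟩
    · rintro rfl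
      apply hab
      rw [h1, h2, h]
    · intro X hX
      rw [h1, h2, ← h]
      exact hX
  · obtain ⟨d, hd⟩ : ∃ d, r = s + (d + 1) := ⟨r - s - 1, by omega⟩
    refine ⟨s, 2 ^ (d + 1) * a' - b', -b', ?_, hb'.neg, ?_, ?_⟩
    · apply Even.sub_odd _ hb'
      apply Even.mul_right
      exact Int.even_pow.2 ⟨even_two, by omega⟩
    · intro h3
      have : (2 : ℤ) ^ (d + 1) * a' = 0 := by linarith
      rcases mul_eq_zero.1 this with h4 | h4
      · exact absurd h4 (by positivity)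
      · rw [h4] at ha'; simp at ha'
    · intro X hX
      apply hit_swap
      rw [hit_recenter, h1, h2, hd, pow_add]
      rw [show (2 : ℤ) ^ s * (2 ^ (d + 1) * a' - b') = 2 ^ s * 2 ^ (d + 1) * a' - 2 ^ s * b' by ring,
        show (2 : ℤ) ^ s * -b' = -(2 ^ s * b') by ring] at hX
      exact hX

theorem half_mono {x y x' y' u w u' w' : ℤ} (h : Half x y x' y')
    (h1 : ∀ X : Set ℤ, Hit X x y → Hit X u w) (h2 : ∀ X : Set ℤ, Hit X x' y' → Hit X u' w') :
    Half u w u' w' := by
  obtain ⟨m, hm, X, hper, hc, a, b⟩ := h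
  exact ⟨m, hm, X, hper, hc, h1 X a, h2 X b⟩

theorem half_all {a b c d : ℤ} (ha : a ≠ 0) (hb : b ≠ 0) (hab : a ≠ b) (hc : c ≠ 0) (hd : d ≠ 0)
    (hcd : c ≠ d) : Half a b c d := by
  obtain ⟨k1, x1, y1, hx1, hy1, hne1, h1⟩ := normal_form ha hb hab
  obtain ⟨k2, x2, y2, hx2, hy2, hne2, h2⟩ := normal_form hc hd hcd
  have key : ∀ (k d : ℕ) (x y x' y' : ℤ), Odd x → Odd y → x ≠ y → Odd x' → Odd y' → x' ≠ y' →
      Half (2 ^ k * x) (2 ^ k * y) (2 ^ (k + d) * x') (2 ^ (k + d) * y') := by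
    intro k d x y x' y' hx hy hxy hx' hy' hxy'
    have := half_scale (2 ^ k) (by positivity) (half_main (v := d) hx hy hxy hx' hy' hxy')
    rw [pow_add, mul_assoc, mul_assoc]
    exact this
  rcases le_total k1 k2 with h | h
  · obtain ⟨e, rfl⟩ := Nat.exists_eq_add_of_le h
    exact half_mono (key k1 e x1 y1 x2 y2 hx1 hy1 hne1 hx2 hy2 hne2) h1 h2
  · obtain ⟨e, rfl⟩ := Nat.exists_eq_add_of_le h
    exact half_mono (half_comm (key k2 e x2 y2 x1 y1 hx2 hy2 hne2 hx1 hy1 hne1)) h1 h2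

/-- A `k`-ship: integers `a_1 < a_2 < ... < a_k`. -/
structure Ship (k : ℕ) where
  /-- the points of the ship -/
  pt : Fin k → ℤ
  /-- they are strictly increasing -/
  mono : StrictMono pt

/-- A shooting pattern: a 0-1 sequence indexed by the integers. -/
abbrev Pattern := ℤ → Fin 2

/-- The pattern `x` hits the ship `S`: every translate of `S` contains a shot. -/
def Hits {k : ℕ} (x : Pattern) (S : Ship k) : Prop :=
  ∀ t : ℤ, 1 ≤ ∑ j : Fin k, (x (t + S.pt j)).val

/-- The pattern `x` has density `d`. -/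
def HasDensity (x : Pattern) (d : ℝ) : Prop :=
  Tendsto (fun N : ℕ => (∑ i ∈ Finset.Icc (-(N : ℤ)) N, ((x i).val : ℝ)) / (2 * N + 1)) atTop (𝓝 d)

/-- `π(F)`: the infimum of the densities of the patterns hitting all the ships of the family `F`. -/
noncomputable def minDensity {n k : ℕ} (F : Fin n → Ship k) : ℝ :=
  sInf {d : ℝ | ∃ x : Pattern, HasDensity x d ∧ ∀ i, Hits x (F i)}

/-- `M^n_k`: the supremum of `π(F)` over all the families of `n` ships with `k` points. -/
noncomputable def M (n k : ℕ) : ℝ :=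
  sSup {r : ℝ | ∃ F : Fin n → Ship k, r = minDensity F}

/-- the symmetric partial sums of a function on `ℤ` -/
noncomputable def S (f : ℤ → ℝ) (N : ℕ) : ℝ := ∑ i ∈ Finset.Icc (-(N : ℤ)) N, f i

theorem S_zero (f : ℤ → ℝ) : S f 0 = f 0 := by
  simp [S]

theorem S_succ (f : ℤ → ℝ) (N : ℕ) :
    S f (N + 1) = S f N + f ((N : ℤ) + 1) + f (-(N : ℤ) - 1) := by
  unfold S
  have h : Finset.Icc (-((N + 1 : ℕ) : ℤ)) ((N + 1 : ℕ) : ℤ) =
      insert ((N : ℤ) + 1) (insert (-(N : ℤ) - 1) (Finset.Icc (-(N : ℤ)) N)) := by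
    ext i
    simp only [Finset.mem_Icc, Finset.mem_insert]
    push_cast
    omega
  rw [h, Finset.sum_insert, Finset.sum_insert]
  · ring
  · simp only [Finset.mem_Icc]; omega
  · simp only [Finset.mem_Icc, Finset.mem_insert]; omega

theorem S_split (f : ℤ → ℝ) (N : ℕ) :
    S f N = ∑ i ∈ Finset.range (N + 1), f (i : ℤ) + ∑ i ∈ Finset.range N, f (-1 - (i : ℤ)) := by
  induction N with
  | zero => simp [S_zero]
  | succ N ih =>
    rw [S_succ, ih, Finset.sum_range_succ _ (N + 1), Finset.sum_range_succ (fun i => f (-1 - (i : ℤ))) N,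
      show -(N : ℤ) - 1 = -1 - (N : ℤ) by ring]
    push_cast
    ring

theorem block_const {f : ℤ → ℝ} {m : ℕ} (hper : ∀ i : ℤ, f (i + m) = f i) (n : ℤ) :
    ∑ i ∈ Finset.range m, f (n + i) = ∑ i ∈ Finset.range m, f (i : ℤ) := by
  have step : ∀ n : ℤ, ∑ i ∈ Finset.range m, f (n + 1 + i) = ∑ i ∈ Finset.range m, f (n + i) := by
    intro n
    have h1 := Finset.sum_range_succ' (fun i : ℕ => f (n + i)) m
    have h2 := Finset.sum_range_succ (fun i : ℕ => f (n + i)) m
    rw [h1] at h2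
    simp only [Nat.cast_zero, add_zero, hper n] at h2
    have h3 := add_right_cancel h2
    rw [← h3]
    apply Finset.sum_congr rfl
    intro i _
    congr 1
    push_cast
    ring
  induction n using Int.induction_on with
  | zero => simp
  | succ n ih => rw [step, ih]
  | pred n ih =>
    rw [← ih, ← step]
    simp

theorem S_add_period {f : ℤ → ℝ} {m : ℕ} (hper : ∀ i : ℤ, f (i + m) = f i) (N : ℕ) :
    S f (N + m) = S f N + 2 * ∑ i ∈ Finset.range m, f (i : ℤ) := by
  rw [S_split, S_split]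
  have h1 : ∑ i ∈ Finset.range (N + m + 1), f (i : ℤ) =
      ∑ i ∈ Finset.range (N + 1), f (i : ℤ) + ∑ i ∈ Finset.range m, f (i : ℤ) := by
    rw [show N + m + 1 = (N + 1) + m by ring, Finset.sum_range_add]
    congr 1
    rw [← block_const hper ((N + 1 : ℕ) : ℤ)]
    apply Finset.sum_congr rfl
    intro i _
    push_cast
    rfl
  have h2 : ∑ i ∈ Finset.range (N + m), f (-1 - (i : ℤ)) =
      ∑ i ∈ Finset.range N, f (-1 - (i : ℤ)) + ∑ i ∈ Finset.range m, f (i : ℤ) := by
    rw [Finset.sum_range_add]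
    congr 1
    rw [← block_const hper (-(N : ℤ) - m), ← Finset.sum_range_reflect]
    apply Finset.sum_congr rfl
    intro i hi
    rw [Finset.mem_range] at hi
    congr 1
    have : ((m - 1 - i : ℕ) : ℤ) = (m : ℤ) - 1 - i := by omega
    push_cast
    rw [this]
    ring
  rw [h1, h2]
  ring

theorem density_periodic {f : ℤ → ℝ} {m : ℕ} (hm : 0 < m) (hper : ∀ i : ℤ, f (i + m) = f i)
    (h0 : ∀ i, 0 ≤ f i) (h1 : ∀ i, f i ≤ 1) :
    Tendsto (fun N : ℕ => S f N / (2 * N + 1)) atTop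
      (𝓝 ((∑ i ∈ Finset.range m, f (i : ℤ)) / m)) := by
  obtain ⟨c, hc⟩ : ∃ c, c = ∑ i ∈ Finset.range m, f (i : ℤ) := ⟨_, rfl⟩
  rw [← hc]
  have hmR : (0 : ℝ) < m := by exact_mod_cast hm
  have hc0 : 0 ≤ c := by rw [hc]; exact Finset.sum_nonneg (fun i _ => h0 _)
  have hc1 : c ≤ m := by
    rw [hc]
    calc ∑ i ∈ Finset.range m, f (i : ℤ) ≤ ∑ i ∈ Finset.range m, (1 : ℝ) :=
          Finset.sum_le_sum (fun i _ => h1 _)
      _ = m := by simp
  have hcm0 : 0 ≤ c / m := by positivity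
  have hcm1 : c / m ≤ 1 := by rw [div_le_one hmR]; exact hc1
  have hS0 : ∀ N, 0 ≤ S f N := fun N => Finset.sum_nonneg (fun i _ => h0 _)
  have hS1 : ∀ N : ℕ, S f N ≤ 2 * N + 1 := by
    intro N
    induction N with
    | zero => rw [S_zero]; simpa using h1 0
    | succ N ih =>
      rw [S_succ]
      have := h1 ((N : ℤ) + 1)
      have := h1 (-(N : ℤ) - 1)
      push_cast
      linarith
  have bound : ∀ q r : ℕ, r < m → |S f (r + q * m) - (2 * ((r + q * m : ℕ) : ℝ) + 1) * (c / m)| ≤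
      2 * m + 1 := by
    intro q
    induction q with
    | zero =>
      intro r hr
      have hr' : (r : ℝ) ≤ m := by exact_mod_cast hr.le
      have a1 := hS0 r
      have a2 := hS1 r
      rw [zero_mul, add_zero]
      have a3 : (2 * (r : ℝ) + 1) * (c / m) ≤ (2 * (r : ℝ) + 1) * 1 := by
        apply mul_le_mul_of_nonneg_left hcm1; positivity
      have a4 : 0 ≤ (2 * (r : ℝ) + 1) * (c / m) := by positivity
      rw [abs_le]
      constructor <;> linarith
    | succ q ih =>
      intro r hr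
      have := ih r hr
      rw [show r + (q + 1) * m = (r + q * m) + m by ring, S_add_period hper, ← hc]
      have e : S f (r + q * m) + 2 * c - (2 * ((r + q * m + m : ℕ) : ℝ) + 1) * (c / m) =
          S f (r + q * m) - (2 * ((r + q * m : ℕ) : ℝ) + 1) * (c / m) := by
        push_cast
        field_simp
        ring
      rw [e]
      exact this
  have bound' : ∀ N : ℕ, |S f N - (2 * (N : ℝ) + 1) * (c / m)| ≤ 2 * m + 1 := by
    intro N
    have := bound (N / m) (N % m) (Nat.mod_lt _ hm)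
    rw [show N % m + N / m * m = N by rw [mul_comm]; exact Nat.mod_add_div N m] at this
    exact this
  have lim : Tendsto (fun N : ℕ => (2 * (m : ℝ) + 1) / (2 * N + 1)) atTop (𝓝 0) := by
    apply Tendsto.div_atTop tendsto_const_nhds
    apply tendsto_atTop_add_const_right
    exact Tendsto.const_mul_atTop (by norm_num) tendsto_natCast_atTop_atTop
  rw [tendsto_iff_norm_sub_tendsto_zero]
  refine squeeze_zero (fun N => norm_nonneg _) (fun N => ?_) lim
  have hN : (0 : ℝ) < 2 * N + 1 := by positivity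
  rw [Real.norm_eq_abs]
  have : S f N / (2 * N + 1) - c / m = (S f N - (2 * (N : ℝ) + 1) * (c / m)) / (2 * N + 1) := by
    field_simp
  rw [this, abs_div, abs_of_pos hN]
  exact div_le_div_of_nonneg_right (bound' N) hN.le

theorem upper (F : Fin 2 → Ship 3) :
    ∃ (x : Pattern) (d : ℝ), HasDensity x d ∧ d ≤ 1 / 2 ∧ ∀ i, Hits x (F i) := by
  have lt1 : ∀ i, (F i).pt 0 < (F i).pt 1 := fun i => (F i).mono (by decide)
  have lt2 : ∀ i, (F i).pt 1 < (F i).pt 2 := fun i => (F i).mono (by decide)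
  obtain ⟨m, hm, X, hper, hcount, hit0, hit1⟩ := half_all
    (a := (F 0).pt 1 - (F 0).pt 0) (b := (F 0).pt 2 - (F 0).pt 0)
    (c := (F 1).pt 1 - (F 1).pt 0) (d := (F 1).pt 2 - (F 1).pt 0)
    (by have := lt1 0; omega) (by have := lt1 0; have := lt2 0; omega)
    (by have := lt2 0; omega) (by have := lt1 1; omega) (by have := lt1 1; have := lt2 1; omega)
    (by have := lt2 1; omega)
  obtain ⟨x, hx⟩ : ∃ x : Pattern, ∀ i, (i ∈ X → x i = 1) ∧ (i ∉ X → x i = 0) :=
    ⟨fun i => if i ∈ X then 1 else 0, fun i => ⟨fun h => by simp [h], fun h => by simp [h]⟩⟩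
  have hits : ∀ Sh : Ship 3, Hit X (Sh.pt 1 - Sh.pt 0) (Sh.pt 2 - Sh.pt 0) → Hits x Sh := by
    intro Sh h t
    rw [Fin.sum_univ_three]
    have := h (t + Sh.pt 0)
    rw [show t + Sh.pt 0 + (Sh.pt 1 - Sh.pt 0) = t + Sh.pt 1 by ring,
      show t + Sh.pt 0 + (Sh.pt 2 - Sh.pt 0) = t + Sh.pt 2 by ring] at this
    rcases this with h1 | h1 | h1
    · rw [(hx _).1 h1]; simp; omega
    · rw [(hx _).1 h1]; simp; omega
    · rw [(hx _).1 h1]; simp
  have hf : ∀ i : ℤ, (((x i).val : ℕ) : ℝ) = if i ∈ X then 1 else 0 := by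
    intro i
    by_cases h : i ∈ X
    · rw [(hx i).1 h]; simp [h]
    · rw [(hx i).2 h]; simp [h]
  have hdens := density_periodic (f := fun i => (((x i).val : ℕ) : ℝ)) hm (by
      intro i
      simp only [hf, hper]) (fun i => by positivity) (fun i => by
      simp only [hf]
      split_ifs <;> norm_num)
  refine ⟨x, _, hdens, ?_, ?_⟩
  · have hmR : (0 : ℝ) < m := by exact_mod_cast hm
    have e : ∑ i ∈ Finset.range m, (((x (i : ℤ)).val : ℕ) : ℝ) =
        (Nat.count (fun i : ℕ => (i : ℤ) ∈ X) m : ℝ) := by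
      rw [Nat.count_eq_card_filter_range, Finset.card_filter]
      push_cast
      apply Finset.sum_congr rfl
      intro i _
      rw [hf]
    rw [e, div_le_iff₀ hmR]
    have : (2 : ℝ) * (Nat.count (fun i : ℕ => (i : ℤ) ∈ X) m : ℝ) ≤ m := by exact_mod_cast hcount
    linarith
  · intro i
    fin_cases i
    · exact hits _ hit0
    · exact hits _ hit1

/-- the ship `[0,1,3]` -/
def ship013 : Ship 3 := ⟨![0, 1, 3], by decide⟩

/-- the ship `[0,4,6]` -/
def ship046 : Ship 3 := ⟨![0, 4, 6], by decide⟩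

/-- a potential on the windows of length 6 -/
def phi (b0 b1 b2 b3 b4 b5 : Fin 2) : ℤ :=
  [0, 0, 0, -1, 0, -1, -1, -2, 0, -1, 0, -2, -1, -2, -2, -3, 0, -1, 0, -2, 0, -1, -1, -2, 0, -2, 0,
    -3, -1, -2, -2, -3, 0, -1, 0, -2, -1, -1, -2, -3, 0, -1, 0, -2, -1, -2, -2, -3, 0, -1, 0, -3,
    -1, -1, -2, -3, 0, -2, 0, -3, -1, -2, -2, -3].getD
    (b0.val + 2 * b1.val + 4 * b2.val + 8 * b3.val + 16 * b4.val + 32 * b5.val) 0

theorem phi_step : ∀ b0 b1 b2 b3 b4 b5 b6 : Fin 2, 1 ≤ b0.val + b1.val + b3.val →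
    1 ≤ b0.val + b4.val + b6.val →
    1 + phi b1 b2 b3 b4 b5 b6 ≤ 2 * (b0.val : ℤ) + phi b0 b1 b2 b3 b4 b5 := by
  decide

theorem phi_bound : ∀ b0 b1 b2 b3 b4 b5 : Fin 2, -3 ≤ phi b0 b1 b2 b3 b4 b5 ∧
    phi b0 b1 b2 b3 b4 b5 ≤ 0 := by
  decide

theorem lower {x : Pattern} {d : ℝ} (hd : HasDensity x d) (h1 : Hits x ship013)
    (h2 : Hits x ship046) : 1 / 2 ≤ d := by
  obtain ⟨φ, hφ⟩ : ∃ φ : ℤ → ℤ, ∀ t, φ t = phi (x t) (x (t + 1)) (x (t + 2)) (x (t + 3)) (x (t + 4))
    (x (t + 5)) := ⟨_, fun _ => rfl⟩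
  have hb : ∀ t, -3 ≤ φ t ∧ φ t ≤ 0 := fun t => by rw [hφ]; exact phi_bound _ _ _ _ _ _
  have hstep : ∀ t, 1 + φ (t + 1) ≤ 2 * ((x t).val : ℤ) + φ t := by
    intro t
    have a1 := h1 t
    have a2 := h2 t
    rw [Fin.sum_univ_three] at a1 a2
    simp only [ship013, ship046, Matrix.cons_val_zero, Matrix.cons_val_one, Matrix.cons_val,
      add_zero] at a1 a2
    have := phi_step (x t) (x (t + 1)) (x (t + 2)) (x (t + 3)) (x (t + 4)) (x (t + 5)) (x (t + 6))
      a1 a2
    rw [hφ, hφ, show t + 1 + 1 = t + 2 by ring, show t + 1 + 2 = t + 3 by ring,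
      show t + 1 + 3 = t + 4 by ring, show t + 1 + 4 = t + 5 by ring,
      show t + 1 + 5 = t + 6 by ring]
    exact this
  have hstepR : ∀ t, 1 + (φ (t + 1) : ℝ) ≤ 2 * (((x t).val : ℕ) : ℝ) + (φ t : ℝ) := by
    intro t
    exact_mod_cast hstep t
  have main : ∀ N : ℕ, (2 * (N : ℝ) + 1) + (φ ((N : ℤ) + 1) : ℝ) - (φ (-(N : ℤ)) : ℝ) ≤
      2 * S (fun i => (((x i).val : ℕ) : ℝ)) N := by
    intro N
    induction N with
    | zero =>
      rw [S_zero]
      have := hstepR 0
      simp only [Nat.cast_zero, mul_zero, zero_add, neg_zero] at this ⊢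
      linarith
    | succ N ih =>
      rw [S_succ]
      have a1 := hstepR ((N : ℤ) + 1)
      have a2 := hstepR (-(N : ℤ) - 1)
      rw [show -(N : ℤ) - 1 + 1 = -(N : ℤ) by ring] at a2
      push_cast
      rw [show -((N : ℤ) + 1) = -(N : ℤ) - 1 by ring]
      linarith
  have low : ∀ N : ℕ, 1 / 2 - (3 / 2) / (2 * (N : ℝ) + 1) ≤
      S (fun i => (((x i).val : ℕ) : ℝ)) N / (2 * N + 1) := by
    intro N
    have hN : (0 : ℝ) < 2 * N + 1 := by positivity
    have a := main N
    have b1 : (-3 : ℝ) ≤ φ ((N : ℤ) + 1) := by exact_mod_cast (hb _).1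
    have b2 : (φ (-(N : ℤ)) : ℝ) ≤ 0 := by exact_mod_cast (hb _).2
    rw [div_sub_div _ _ (by norm_num) hN.ne', div_le_div_iff₀ (by positivity) hN]
    nlinarith
  have lim : Tendsto (fun N : ℕ => 1 / 2 - (3 / 2 : ℝ) / (2 * (N : ℝ) + 1)) atTop
      (𝓝 (1 / 2 - 0)) := by
    apply Tendsto.sub tendsto_const_nhds
    apply Tendsto.div_atTop tendsto_const_nhds
    apply tendsto_atTop_add_const_right
    exact Tendsto.const_mul_atTop (by norm_num) tendsto_natCast_atTop_atTop
  rw [sub_zero] at lim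
  exact le_of_tendsto_of_tendsto' lim hd low

theorem density_nonneg {x : Pattern} {d : ℝ} (hd : HasDensity x d) : 0 ≤ d :=
  ge_of_tendsto' hd (fun N => by positivity)

theorem minDensity_le (F : Fin 2 → Ship 3) : minDensity F ≤ 1 / 2 := by
  obtain ⟨x, d, hd, hle, hh⟩ := upper F
  refine le_trans (csInf_le ⟨0, ?_⟩ ⟨x, hd, hh⟩) hle
  rintro e ⟨y, hy, _⟩
  exact density_nonneg hy

theorem minDensity_eq : minDensity ![ship013, ship046] = 1 / 2 := by
  apply le_antisymm (minDensity_le _)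
  obtain ⟨x, d, hd, _, hh⟩ := upper ![ship013, ship046]
  unfold minDensity
  apply le_csInf
  · exact ⟨d, x, hd, hh⟩
  · rintro e ⟨y, hy, hy2⟩
    exact lower hy (hy2 0) (hy2 1)

/-- `M^2_3 = 1/2`. More precisely every family of two 3-ships is hit by a pattern of density at
most `1/2`, and the family `[0,1,3]`, `[0,4,6]` needs density `1/2`. -/
theorem result : M 2 3 = 1 / 2 ∧
    (∀ F : Fin 2 → Ship 3, ∃ (x : Pattern) (d : ℝ), HasDensity x d ∧ d ≤ 1 / 2 ∧
      ∀ i, Hits x (F i)) ∧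
    (∀ F : Fin 2 → Ship 3, minDensity F ≤ 1 / 2) ∧
    minDensity ![ship013, ship046] = 1 / 2 := by
  refine ⟨?_, upper, minDensity_le, minDensity_eq⟩
  apply le_antisymm
  · unfold M
    apply csSup_le
    · exact ⟨_, ![ship013, ship046], rfl⟩
    · rintro r ⟨F, rfl⟩
      exact minDensity_le F
  · rw [← minDensity_eq]
    apply le_csSup
    · refine ⟨1 / 2, ?_⟩
      rintro r ⟨F, rfl⟩
      exact minDensity_le F
    · exact ⟨_, rfl⟩

end Pool.Agent.Results.MP_e24151_co.TwoThreeShips
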